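import Pool.Agent.Y560.TF.Stm
import Pool.Agent.Y560.TT.Min

/-!
Project TF: from the back-and-forth classes to all Borel classes.
-/

set_option autoImplicit false

namespace Pool.Agent.Y560.TF

open Set MeasureTheory
open Pool.Agent.H899R2.VP (St Adj PIso BF IsoOn idOn inv comp zipSet closed_rank labels)
open Pool.Agent.H533R2.VO (RS lift put OS Ic RIso Dich VC BlkV S_FINAL)
open Pool.Agent.H566P (ar R2 v2 a0 a1 lt ac co mk S_ACC S_MSG XG Isom
  OUT_code OUT_inj OUT_meas OUT_inv OUT_rsymm OUT_iso OUT_lt OUT_ac OUT_co OUT_clopen)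
open Pool.Agent.Y560.TG (acc msg lt_mk ac_mk co_mk R2_ext piso_iff riso_iff riso_isoOn meas_lt
  meas_ac meas_co meas_into cont_into piso_lt piso_ac piso_co piso_eq ex lt_ex ac_ex co_ex_even
  co_ex_odd piso_ex orb orb_ex Nm Off Sm Thin Few bf_trans0 bf_symm0 iso_trans0 iso_symm0
  iso_refl0 S_EXT S_GL S_MAT S_BP mat pick Se)
open Pool.Agent.Y560.TT (add_nat_lt add_omega_lt)

theorem t_FIN (hREC : S_REC) : S_FIN := by
  classical
  intro Γ _ g hg B hBm hBi hBV
  by_cases hperf : ∃ c : (ℕ → Bool) → R2, Continuous c ∧ (∀ A, c A ∈ B) ∧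
      ∀ A A', RIso (c A) (c A') → A = A'
  · exact Or.inr hperf
  left
  set K : Set (St ar) := {M | M.1 = (fun _ _ => false) ∧ M.2 ∈ B} with hK
  have hKm : MeasurableSet K := by
    have e1 : K = (Prod.fst ⁻¹' {fun _ _ => false}) ∩ (Prod.snd ⁻¹' B) := rfl
    rw [e1]
    exact (measurable_fst (measurableSet_singleton _)).inter (measurable_snd hBm)
  have hKl : ∀ M ∈ K, M = lift M.2 := fun M hM => Prod.ext hM.1 rfl
  have hlK : ∀ R ∈ B, lift R ∈ K := fun R hR => ⟨rfl, hR⟩
  have hKi : ∀ M ∈ K, ∀ N : St ar, IsoOn M N univ univ ∅ → N ∈ K := by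
    intro M hM N h
    have h1 : N.1 = fun _ _ => false := by
      obtain ⟨q, -, -, h3, h4, h5⟩ := h
      funext x y
      obtain ⟨x', hx⟩ := h5 x trivial
      obtain ⟨y', hy⟩ := h5 y trivial
      have h6 := h3.2.1 _ hx _ hy
      rw [hM.1] at h6
      exact h6.symm
    have h2 : N = lift N.2 := Prod.ext h1 rfl
    refine ⟨h1, ?_⟩
    rw [hKl M hM, h2] at h
    exact (hBi _ _ (riso_isoOn.2 h)).1 hM.2
  have hfew : ¬ ∃ k : (ℕ → Bool) → St ar, Continuous k ∧ (∀ c, k c ∈ K) ∧
      ∀ c d, IsoOn (k c) (k d) univ univ ∅ → c = d := by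
    rintro ⟨k, hkc, hkK, hkd⟩
    refine hperf ⟨fun A => (k A).2, continuous_snd.comp hkc, fun A => (hkK A).2, ?_⟩
    intro A A' hAA
    refine hkd A A' ?_
    rw [hKl _ (hkK A), hKl _ (hkK A')]
    exact riso_isoOn.1 hAA
  obtain ⟨α0, hα0, hcl⟩ := closed_rank hKm hKi
  set α : Ordinal.{0} := max Ordinal.omega0 α0 with hα
  have hωα : Ordinal.omega0 ≤ α := le_max_left _ _
  have hα1 : α < Ordinal.omega 1 := max_lt Ordinal.omega0_lt_omega_one hα0
  have hcl' : ∀ R ∈ B, ∀ V : R2, BF (lift R) (lift V) univ univ α ∅ → V ∈ B := fun R hR V h =>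
    (hcl _ (hlK R hR) _ (h.mono (le_max_right _ _))).2
  set β : Ordinal.{0} := α * Ordinal.omega0 + Ordinal.omega0 * Ordinal.omega0 with hβ
  have hβ1 : β < Ordinal.omega 1 := by
    refine Ordinal.isPrincipal_add_omega 1 ?_ ?_
    · exact Ordinal.isPrincipal_mul_omega 1 hα1 Ordinal.omega0_lt_omega_one
    · exact Ordinal.isPrincipal_mul_omega 1 Ordinal.omega0_lt_omega_one
        Ordinal.omega0_lt_omega_one
  have hthin : ∀ R ∈ B, Thin β R := by
    intro R hR
    refine hREC Γ g hg R α (hBV R hR) hωα hα1 ?_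
    rintro ⟨c, h1, h2, h3⟩
    exact hperf ⟨c, h1, fun A => hcl' R hR _ (h2 A), h3⟩
  obtain ⟨lbl, hl⟩ := labels hKm hfew β hβ1
  -- a representative for every label
  have hch : ∀ n : ℕ, ∃ f : ℕ → R2, ∀ R ∈ B, lbl (lift R) [] = n → ∃ m, RIso (f m) R := by
    intro n
    by_cases h : ∃ R ∈ B, lbl (lift R) [] = n
    · obtain ⟨R, hR, hn⟩ := h
      obtain ⟨f, hf⟩ := hthin R hR
      refine ⟨f, fun R' hR' hn' => hf R' ?_⟩
      have h1 := hl _ (hlK R hR) _ (hlK R' hR') [] [] rfl (by rw [hn, hn'])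
      exact h1.subset (empty_subset _)
    · exact ⟨fun _ => fun _ _ => false, fun R' hR' hn' => absurd ⟨R', hR', hn'⟩ h⟩
  choose F hF using hch
  refine ⟨fun k => F k.unpair.1 k.unpair.2, fun R hR => ?_⟩
  obtain ⟨m, hm⟩ := hF _ R hR rfl
  exact ⟨Nat.pair (lbl (lift R) []) m, by simpa only [Nat.unpair_pair] using hm⟩

/-- `x` is a strict semilinear order (the predecessors of every element are linearly ordered) on
which `Γ` acts by automorphisms, with unary predicates -/
structure TO {Γ : Type} [Group Γ] (x : XG Γ) : Prop where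
  irr : ∀ m, x.1 m m = false
  tr : ∀ m n k, x.1 m n = true → x.1 n k = true → x.1 m k = true
  sem : ∀ m n k, x.1 m k = true → x.1 n k = true → m = n ∨ x.1 m n = true ∨ x.1 n m = true
  one : ∀ m, x.2.1 1 m = m
  mul : ∀ γ δ m, x.2.1 (γ * δ) m = x.2.1 γ (x.2.1 δ m)
  mono : ∀ γ m n, x.1 m n = true → x.1 (x.2.1 γ m) (x.2.1 γ n) = true

theorem OUT_TR (hA : S_ACC) {Γ : Type} {g : ℕ → Γ} [Group Γ] (x : XG Γ) (h : TO x) :
    TR g (OUT_code g x) := by
  refine ⟨x.2.1, ⟨?_, ?_, ?_, h.one, h.mul, ?_, ?_⟩⟩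
  · intro m
    rw [OUT_lt hA, h.irr]
    simp
  · intro m n k
    simp only [OUT_lt hA]
    exact h.tr m n k
  · intro m n k
    simp only [OUT_lt hA]
    exact h.sem m n k
  · intro γ m n
    simp only [OUT_lt hA]
    exact h.mono γ m n
  · intro k m n
    rw [OUT_ac hA]

/-- The final form. -/
theorem t_OUTF (h : S_FIN) (Γ : Type) [Group Γ] [Countable Γ] (B : Set (XG Γ))
    (hB : MeasurableSet B) (hLO : ∀ x ∈ B, TO x)
    (hinv : ∀ x ∈ B, ∀ (y : XG Γ) (σ : Equiv.Perm ℕ), Isom σ x y → y ∈ B) :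
    (∃ f : ℕ → XG Γ, ∀ x ∈ B, ∃ n, ∃ σ : Equiv.Perm ℕ, Isom σ (f n) x) ∨
    (∃ c : (ℕ → Bool) → XG Γ, Continuous c ∧ (∀ A, c A ∈ B) ∧
      ∀ A A', (∃ σ : Equiv.Perm ℕ, Isom σ (c A) (c A')) → A = A') := by
  classical
  have hA := acc
  obtain ⟨g, hg⟩ := exists_surjective_nat Γ
  have hinj := OUT_inj hA hg
  set B1 : Set R2 := OUT_code g '' B with hB1
  have hB1m : MeasurableSet B1 :=
    hB.image_of_measurable_injOn (OUT_meas hA) (hinj.injOn)
  have hone : ∀ R R' : R2, RIso R R' → R ∈ B1 → R' ∈ B1 := by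
    rintro R R' h ⟨x, hx, rfl⟩
    obtain ⟨σ, y, hy, hyR⟩ := OUT_inv hA hg x R' h
    exact ⟨y, hinv x hx y σ hy, hyR⟩
  have hV := h Γ g hg B1 hB1m
    (fun R R' h => ⟨hone R R' h, hone R' R (OUT_rsymm h)⟩)
    (by
      rintro R ⟨x, hx, rfl⟩
      exact OUT_TR hA x (hLO x hx))
  rcases hV with ⟨f, hf⟩ | ⟨c, hc, hcB, hcI⟩
  · left
    have hch : ∀ n, ∃ x : XG Γ, f n ∈ B1 → OUT_code g x = f n := by
      intro n
      by_cases h : f n ∈ B1
      · obtain ⟨x, -, hx⟩ := h
        exact ⟨x, fun _ => hx⟩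
      · exact ⟨(fun _ _ => false, fun _ _ => 0, fun _ _ => false), fun h' => absurd h' h⟩
    choose f' hf' using hch
    refine ⟨f', fun x hx => ?_⟩
    obtain ⟨n, hn⟩ := hf (OUT_code g x) ⟨x, hx, rfl⟩
    have hfn : f n ∈ B1 := hone _ _ (OUT_rsymm hn) ⟨x, hx, rfl⟩
    refine ⟨n, (OUT_iso hA hg _ _).1 ?_⟩
    rw [hf' n hfn]
    exact hn
  · right
    choose X hXB hXc using hcB
    refine ⟨X, ?_, hXB, ?_⟩
    · have h1 : Continuous (fun A => (X A).1) := by
        refine continuous_pi fun m => continuous_pi fun n => ?_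
        refine continuous_discrete_rng.2 fun b => ?_
        have hcl : IsClopen {A | (X A).1 m n = true} := by
          have e : {A | (X A).1 m n = true} = {A | c A 0 (v2 0 m n) = true} := by
            ext A
            show (X A).1 m n = true ↔ lt (c A) m n
            rw [← hXc A, OUT_lt hA]
          rw [e]
          exact OUT_clopen hc _ _
        cases b with
        | true => exact hcl.isOpen
        | false =>
          have e : (fun A => (X A).1 m n) ⁻¹' {false} = {A | (X A).1 m n = true}ᶜ := by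
            ext A
            simp
          rw [e]
          exact hcl.compl.isOpen
      have h2 : Continuous (fun A => (X A).2.1) := by
        refine continuous_pi fun γ => continuous_pi fun m => ?_
        refine continuous_discrete_rng.2 fun n => ?_
        obtain ⟨k, rfl⟩ := hg γ
        have e : (fun A => (X A).2.1 (g k) m) ⁻¹' {n} =
            {A | c A (2 * k + 1) (v2 (2 * k + 1) m n) = true} := by
          ext A
          show (X A).2.1 (g k) m = n ↔ ac (c A) k m n
          rw [← hXc A, OUT_ac hA]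
        rw [e]
        exact (OUT_clopen hc _ _).isOpen
      have h3 : Continuous (fun A => (X A).2.2) := by
        refine continuous_pi fun i => continuous_pi fun m => ?_
        refine continuous_discrete_rng.2 fun b => ?_
        have hcl : IsClopen {A | (X A).2.2 i m = true} := by
          have e : {A | (X A).2.2 i m = true} =
              {A | c A (2 * i + 2) (v2 (2 * i + 2) m m) = true} := by
            ext A
            show (X A).2.2 i m = true ↔ co (c A) i m
            rw [← hXc A, OUT_co hA]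
          rw [e]
          exact OUT_clopen hc _ _
        cases b with
        | true => exact hcl.isOpen
        | false =>
          have e : (fun A => (X A).2.2 i m) ⁻¹' {false} = {A | (X A).2.2 i m = true}ᶜ := by
            ext A
            simp
          rw [e]
          exact hcl.compl.isOpen
      exact h1.prodMk (h2.prodMk h3)
    · intro A A' h
      apply hcI
      rw [← hXc A, ← hXc A']
      exact (OUT_iso hA hg _ _).2 h

end Pool.Agent.Y560.TF
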