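import Pool.Agent.Y560.TF.Stm
import Pool.Agent.Y560.TG.OE
import Pool.Agent.Y560.TT.Fin5

/-!
Project TF: one-ended structures, by the tower theorem.
-/

set_option autoImplicit false

namespace Pool.Agent.Y560.TF

open Set MeasureTheory
open Pool.Agent.H899R2.VP (St Adj PIso BF IsoOn idOn inv comp zipSet)
open Pool.Agent.H533R2.VO (RS lift put OS Ic RIso Dich VC BlkV S_FINAL)
open Pool.Agent.H566P (ar R2 v2 a0 a1 lt ac co mk S_ACC S_MSG)
open Pool.Agent.Y560.TG (acc msg lt_mk ac_mk co_mk R2_ext piso_iff riso_iff riso_isoOn meas_lt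
  meas_ac meas_co meas_into cont_into piso_lt piso_ac piso_co piso_eq ex lt_ex ac_ex co_ex_even
  co_ex_odd piso_ex orb orb_ex Nm Off Sm Thin Few bf_trans0 bf_symm0 iso_trans0 iso_symm0
  iso_refl0 S_EXT S_GL S_MAT S_BP mat pick Se meas_cls graph_iso abs_mul rel_map map_rel)
open Pool.Agent.Y560.TT (Pre SegIso tower_gen add_nat_lt)

/-- expansion by `Lr` -/
noncomputable def xp (Λ : ℕ → ℕ → Prop) (β : Ordinal.{0}) (Y : R2) : R2 :=
  mk (lt Y) (fun n a b => if n % 2 = 0 then Lr Λ β Y (n / 2) a b else ac Y (n / 2) a b) (co Y)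

/-- reduct -/
noncomputable def dn (S : R2) : R2 := mk (lt S) (fun n a b => ac S (2 * n + 1) a b) (co S)

theorem lt_xp (Λ β Y x y) : lt (xp Λ β Y) x y ↔ lt Y x y := lt_mk _ _ _ _ _
theorem ac_xp0 (Λ β Y j x y) : ac (xp Λ β Y) (2 * j) x y ↔ Lr Λ β Y j x y := by
  unfold xp; rw [ac_mk, if_pos (by omega), show 2 * j / 2 = j by omega]
theorem ac_xp1 (Λ β Y n x y) : ac (xp Λ β Y) (2 * n + 1) x y ↔ ac Y n x y := by
  unfold xp; rw [ac_mk, if_neg (by omega), show (2 * n + 1) / 2 = n by omega]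
theorem co_xp (Λ β Y n x) : co (xp Λ β Y) n x ↔ co Y n x := co_mk _ _ _ _ _
theorem lt_dn (S x y) : lt (dn S) x y ↔ lt S x y := lt_mk _ _ _ _ _
theorem ac_dn (S n x y) : ac (dn S) n x y ↔ ac S (2 * n + 1) x y := ac_mk _ _ _ _ _ _
theorem co_dn (S n x) : co (dn S) n x ↔ co S n x := co_mk _ _ _ _ _

theorem dn_xp (Λ : ℕ → ℕ → Prop) (β : Ordinal.{0}) (Y : R2) : dn (xp Λ β Y) = Y :=
  R2_ext (fun x y => by rw [lt_dn, lt_xp]) (fun n x y => by rw [ac_dn, ac_xp1])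
    (fun n x => by rw [co_dn, co_xp])

theorem xp_eq_iff (Λ : ℕ → ℕ → Prop) (β : Ordinal.{0}) (S : R2) :
    xp Λ β (dn S) = S ↔ ∀ j x y, Lr Λ β (dn S) j x y ↔ ac S (2 * j) x y := by
  constructor
  · intro h j x y
    rw [← ac_xp0, h]
  · intro h
    refine R2_ext (fun x y => by rw [lt_xp, lt_dn]) (fun n x y => ?_)
      (fun n x => by rw [co_xp, co_dn])
    obtain ⟨k, rfl | rfl⟩ : ∃ k, n = 2 * k ∨ n = 2 * k + 1 := ⟨n / 2, by omega⟩
    · rw [ac_xp0, h]
    · rw [ac_xp1, ac_dn]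

theorem cont_dn : Continuous dn := by
  have hc : ∀ (i : ℕ) (v : Fin (ar i) → ℕ), IsClopen {M : R2 | M i v = true} := by
    intro i v
    have h1 : Continuous (fun M : R2 => M i v) := (continuous_apply v).comp (continuous_apply i)
    exact (isClopen_discrete ({true} : Set Bool)).preimage h1
  refine cont_into (fun x y => ?_) (fun n x y => ?_) (fun n x => ?_)
  · simp only [lt_dn]; exact hc 0 (v2 0 x y)
  · simp only [ac_dn]; exact hc _ _
  · simp only [co_dn]; exact hc _ _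

theorem meas_dn : Measurable dn := cont_dn.measurable

section main

variable {Γ : Type} [Group Γ] {g : ℕ → Γ} {R : R2} {β : Ordinal.{0}}

/-- isomorphisms preserve `Bg` and `Lr` -/
theorem iso_BgLr (hET : S_OET) (Λ : ℕ → ℕ → Prop) {Y Y' : R2}
    (hβ : Ordinal.omega0 ≤ β) {σ : Equiv.Perm ℕ}
    (h1 : ∀ x y, lt Y' (σ x) (σ y) ↔ lt Y x y)
    (h2 : ∀ n x y, ac Y' n (σ x) (σ y) ↔ ac Y n x y) (h3 : ∀ n x, co Y' n (σ x) ↔ co Y n x) :
    (∀ y z, Bg β Y' (σ y) (σ z) ↔ Bg β Y y z) ∧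
      ∀ j y z, Lr Λ β Y' j (σ y) (σ z) ↔ Lr Λ β Y j y z := by
  have h4 := graph_iso h1 h2 h3
  obtain ⟨h5, h6, -, -⟩ := hET Y Y' β Λ hβ
  exact ⟨fun y z => (h5 _ y z (σ y) (σ z) (h4.bf β) rfl rfl).symm,
    fun j y z => (h6 _ j y z (σ y) (σ z) (h4.bf _) rfl rfl).symm⟩

theorem t_OE (hB : S_TBF) (hL : S_LABQ) (hE : S_OEB) (hET : S_OET) (hM : S_OEM) (hS : S_OES)
    (hW : S_EXTW) (hX : S_HEXT) : S_OE := by
  classical
  intro Γ _ g hg R β hR hβ hβ1 hfew hOE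
  obtain ⟨γ, hγ⟩ : ∃ γ, γ = β * Ordinal.omega0 := ⟨_, rfl⟩
  rw [← hγ] at hfew ⊢
  have habs : ∀ n : ℕ, β + (n : Ordinal.{0}) + γ = γ := by
    intro n; rw [hγ]; exact abs_mul hβ n
  have hγ1 : γ < Ordinal.omega 1 := by
    rw [hγ]; exact Ordinal.isPrincipal_mul_omega 1 hβ1 Ordinal.omega0_lt_omega_one
  have hγs : γ + 1 < Ordinal.omega 1 := by simpa using add_nat_lt hγ1 1
  have hβγ : β + 3 ≤ γ := by
    have h3 := habs 3
    rw [← h3]
    exact_mod_cast le_self_add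
  have hωγ : Ordinal.omega0 ≤ γ := hβ.trans ((le_self_add).trans hβγ)
  obtain ⟨Λ, hΛ⟩ := hL R γ hωγ hγ1 hfew
  -- the class
  set K : Set R2 := {Y | BF (lift R) (lift Y) univ univ (γ + 1) ∅} with hK
  have hKm : MeasurableSet K := meas_cls R _ hγs ∅
  have hKi : ∀ Y Y' : R2, RIso Y Y' → Y ∈ K → Y' ∈ K := fun Y Y' h h' =>
    bf_trans0 h' ((riso_isoOn.1 h).bf _)
  have hKMB : ∀ Y ∈ K, TR g Y := fun Y hY => hB Γ g hg R Y hR
    (BF.mono hY (hωγ.trans le_self_add))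
  have hKOE : ∀ Y ∈ K, OneEnd β Y := fun Y hY => (hET R Y β Λ hβ).2.2.1
    (BF.mono hY (hβγ.trans le_self_add)) hOE
  have hKCov : ∀ Y ∈ K, ∀ m, Cov Λ β Y m := fun Y hY m w _ =>
    hΛ Y (BF.mono hY le_self_add) m w
  obtain ⟨hm1, hm2⟩ := hM R β (γ + 1) Λ hβ (hβγ.trans le_self_add) hγs
  have hRK : R ∈ K := (BF.refl (lift R) univ (γ + 1)).subset (empty_subset _)
  -- isomorphisms
  have hxi : ∀ Y : R2, ∀ Y' : R2, RIso Y Y' → RIso (xp Λ β Y) (xp Λ β Y') := by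
    intro Y Y' h
    obtain ⟨σ, h1, h2, h3⟩ := riso_iff.1 h
    obtain ⟨-, h5⟩ := iso_BgLr hET Λ hβ h1 h2 h3
    refine riso_iff.2 ⟨σ, fun x y => by rw [lt_xp, lt_xp, h1], fun n x y => ?_,
      fun n x => by rw [co_xp, co_xp, h3]⟩
    obtain ⟨k, rfl | rfl⟩ : ∃ k, n = 2 * k ∨ n = 2 * k + 1 := ⟨n / 2, by omega⟩
    · rw [ac_xp0, ac_xp0, h5]
    · rw [ac_xp1, ac_xp1, h2]
  have hdi : ∀ S S' : R2, RIso S S' → RIso (dn S) (dn S') := by
    intro S S' h
    obtain ⟨σ, h1, h2, h3⟩ := riso_iff.1 h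
    exact riso_iff.2 ⟨σ, fun x y => by rw [lt_dn, lt_dn, h1],
      fun n x y => by rw [ac_dn, ac_dn, h2], fun n x => by rw [co_dn, co_dn, h3]⟩
  -- the class of expansions
  set B : Set R2 := {S | dn S ∈ K ∧ xp Λ β (dn S) = S} with hBdef
  have hBm : MeasurableSet B := by
    have e : B = (dn ⁻¹' K) ∩ ⋂ j : ℕ, ⋂ x : ℕ, ⋂ y : ℕ,
        ((dn ⁻¹' {Y : R2 | BF (lift R) (lift Y) univ univ (γ + 1) ∅ ∧ Lr Λ β Y j x y}) ∩
          {S : R2 | ac S (2 * j) x y}) ∪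
        ((dn ⁻¹' {Y : R2 | BF (lift R) (lift Y) univ univ (γ + 1) ∅ ∧ Lr Λ β Y j x y})ᶜ ∩
          {S : R2 | ac S (2 * j) x y}ᶜ) := by
      ext S
      simp only [hBdef, mem_ofPred_eq, mem_inter_iff, mem_preimage, mem_iInter, mem_union,
        mem_compl_iff, xp_eq_iff]
      constructor
      · rintro ⟨h1, h2⟩
        refine ⟨h1, fun j x y => ?_⟩
        by_cases h3 : ac S (2 * j) x y
        · exact Or.inl ⟨⟨h1, (h2 j x y).2 h3⟩, h3⟩
        · exact Or.inr ⟨fun h4 => h3 ((h2 j x y).1 h4.2), h3⟩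
      · rintro ⟨h1, h2⟩
        refine ⟨h1, fun j x y => ?_⟩
        rcases h2 j x y with h3 | h3
        · exact ⟨fun _ => h3.2, fun _ => h3.1.2⟩
        · exact ⟨fun h4 => absurd ⟨h1, h4⟩ h3.1, fun h4 => absurd h4 h3.2⟩
    rw [e]
    refine (meas_dn hKm).inter (MeasurableSet.iInter fun j => MeasurableSet.iInter fun x =>
      MeasurableSet.iInter fun y => ?_)
    exact ((meas_dn (hm2 j x y)).inter (meas_ac (2 * j) x y)).union
      ((meas_dn (hm2 j x y)).compl.inter (meas_ac (2 * j) x y).compl)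
  have hBi1 : ∀ S S' : R2, RIso S S' → S ∈ B → S' ∈ B := by
    rintro S S' h ⟨h1, h2⟩
    refine ⟨hKi _ _ (hdi _ _ h) h1, ?_⟩
    obtain ⟨σ, e1, e2, e3⟩ := riso_iff.1 h
    obtain ⟨-, h5⟩ := iso_BgLr hET Λ (Y := dn S) (Y' := dn S') hβ
      (σ := σ) (fun x y => by rw [lt_dn, lt_dn, e1])
      (fun n x y => by rw [ac_dn, ac_dn, e2]) (fun n x => by rw [co_dn, co_dn, e3])
    rw [xp_eq_iff] at h2 ⊢
    intro j x y
    obtain ⟨x, rfl⟩ := σ.surjective x
    obtain ⟨y, rfl⟩ := σ.surjective y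
    rw [h5, h2, e2]
  have hBi : ∀ S S' : R2, RIso S S' → (S ∈ B ↔ S' ∈ B) := by
    intro S S' h
    refine ⟨hBi1 S S' h, hBi1 S' S ?_⟩
    exact riso_isoOn.2 (iso_symm0 (riso_isoOn.1 h))
  have hself : ∀ S ∈ B, ∀ m, ¬ Bg β (dn S) m m := by
    intro S hS' m h3
    obtain ⟨t, ht⟩ := hKMB _ hS'.1
    obtain ⟨k, hk⟩ := hg 1
    exact h3.1 ⟨k, (ht.act _ _ _).2 (by rw [hk, ht.one])⟩
  -- the preorder
  set D : R2 → ℕ → ℕ → Prop := fun S a b => ¬ Bg β (dn S) b a with hD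
  have hPre : Pre B D := by
    refine ⟨fun m n => ?_, fun S hS' S' σ h m n => ?_, fun S hS' m n => ?_,
      fun S hS' k m n h1 h2 => ?_⟩
    · have e : {S | S ∈ B ∧ D S m n} = B ∩
          (dn ⁻¹' {Y : R2 | BF (lift R) (lift Y) univ univ (γ + 1) ∅ ∧ Bg β Y n m})ᶜ := by
        ext S
        simp only [hD, mem_ofPred_eq, mem_inter_iff, mem_compl_iff, mem_preimage]
        constructor
        · rintro ⟨h1, h2⟩
          exact ⟨h1, fun h3 => h2 h3.2⟩
        · rintro ⟨h1, h2⟩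
          exact ⟨h1, fun h3 => h2 ⟨h1.1, h3⟩⟩
      rw [e]
      exact hBm.inter (meas_dn (hm1 n m)).compl
    · obtain ⟨e1, e2, e3⟩ := map_rel (α := ℕ) (S := S) (S' := S') id σ h
      obtain ⟨h5, -⟩ := iso_BgLr hET Λ (Y := dn S) (Y' := dn S') hβ
        (σ := σ) (fun x y => by rw [lt_dn, lt_dn]; exact e1 x y)
        (fun n x y => by rw [ac_dn, ac_dn]; exact e2 _ x y)
        (fun n x => by rw [co_dn, co_dn]; exact e3 n x)
      simp only [hD]
      rw [h5]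
    · simp only [hD]
      by_contra hcon
      push Not at hcon
      exact hself S hS' _ ((hKOE _ hS'.1).tr _ _ _ hcon.1 hcon.2)
    · simp only [hD] at h1 h2 ⊢
      intro h3
      rcases (hE Γ g hg (dn S) β (hKMB _ hS'.1) hβ (hKOE _ hS'.1)).1 n m k h3 with h4 | h4
      · exact h2 h4
      · exact h1 h4
  have hDich := tower_gen ar B hBm hBi D hPre ?_ ?_
  · rcases hDich with ⟨f, hf⟩ | ⟨c, hc1, hc2, hc3⟩
    · refine ⟨fun n => dn (f n), fun V hV => ?_⟩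
      have h1 : xp Λ β V ∈ B := by
        refine ⟨?_, ?_⟩
        · rw [dn_xp]; exact hV
        · rw [dn_xp]
      obtain ⟨n, hn⟩ := hf _ h1
      have h2 := hdi _ _ hn
      rw [dn_xp] at h2
      exact ⟨n, h2⟩
    · exfalso
      refine hfew ⟨fun A => dn (c A), cont_dn.comp hc1, fun A => BF.mono (hc2 A).1 le_self_add,
        fun A A' h => hc3 A A' ?_⟩
      have h1 := hxi _ _ h
      rwa [(hc2 A).2, (hc2 A').2] at h1
  · -- countably many segments
    have hsm : ∀ y, Sm γ (ex (PA Λ β R y) R) (Sp β R y) := fun y =>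
      hS Γ g hg R β γ Λ hR hβ hβγ hγ1 hfew hOE y (hKCov R hRK y)
    choose F hF using hsm
    let P : ℕ × ℕ → R2 → ℕ → Prop := fun ι S m => S ∈ B ∧
      BF (lift R) (lift (dn S)) univ univ γ {(ι.1, m)} ∧
      IsoOn (lift (F ι.1 ι.2).1) (lift (ex (PA Λ β (dn S) m) (dn S))) (F ι.1 ι.2).2
        (Sp β (dn S) m) ∅
    have hPex : ∀ S ∈ B, ∀ m, ∃ ι, P ι S m := by
      intro S hS' m
      have hY : BF (lift R) (lift (dn S)) univ univ (γ + 1) ∅ := hS'.1
      obtain ⟨y0, -, h1⟩ := hY.back (lt_add_one γ) (mem_univ m)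
      have h1' : BF (lift R) (lift (dn S)) univ univ γ {(y0, m)} := h1.subset (by simp)
      have h2 := (hET R (dn S) β Λ hβ).2.2.2 {(y0, m)} y0 m γ
        (by
          have h3 := habs 1
          rw [Nat.cast_one] at h3
          rw [h3]
          exact h1') rfl
      obtain ⟨n, hn⟩ := hF y0 _ _ h2
      exact ⟨(y0, n), hS', h1', hn⟩
    have hPP : ∀ ι S m S' m', P ι S m → P ι S' m' →
        ∃ φ : {k // D S k m} ≃ {k // D S' k m'}, SegIso D S m S' m' φ := by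
      rintro ι S m S' m' ⟨h1, h2, h3⟩ ⟨h1', h2', h3'⟩
      obtain ⟨φ, e1, e2, e3, e4, e5⟩ := hW Γ g hg (dn S) (dn S') β Λ m m' (hKMB _ h1.1)
        (hKMB _ h1'.1) hβ (hKOE _ h1.1) (hKOE _ h1'.1)
        (((h2.symm.comp h2').mono hβγ).subset (by
          rintro _ rfl
          exact ⟨ι.1, rfl, rfl⟩)) (iso_trans0 (iso_symm0 h3) h3')
        (hKCov _ h1.1 m) (hKCov _ h1'.1 m')
      have l1 := (xp_eq_iff _ _ _).1 h1.2
      have l2 := (xp_eq_iff _ _ _).1 h1'.2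
      simp only [lt_dn] at e1
      simp only [ac_dn] at e2
      simp only [co_dn] at e3
      refine ⟨φ, ⟨fun i v => ?_, fun p q => ?_⟩⟩
      · refine rel_map (α := {k // D S k m}) (S := S) (S' := S') (fun a => (a : ℕ))
          (fun a => (φ a : ℕ)) (fun a b => ?_) e1 (fun n a b => ?_) e3 i v
        · constructor
          · intro h
            rw [Subtype.ext h]
          · intro h
            exact congrArg Subtype.val (φ.injective (Subtype.ext h))
        · obtain ⟨k, rfl | rfl⟩ : ∃ k, n = 2 * k ∨ n = 2 * k + 1 := ⟨n / 2, by omega⟩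
          · rw [← l1, ← l2]; exact e5 k a b
          · exact e2 k a b
      · exact not_congr (e4 q p)
    have hch : ∀ ι, ∃ p : R2 × ℕ, p.1 ∈ B ∧ ((∃ S m, P ι S m) → P ι p.1 p.2) := by
      intro ι
      by_cases h : ∃ S m, P ι S m
      · obtain ⟨S, m, h1⟩ := h
        exact ⟨(S, m), h1.1, fun _ => h1⟩
      · refine ⟨(xp Λ β R, 0), ⟨?_, ?_⟩, fun h' => absurd h' h⟩
        · rw [dn_xp]; exact hRK
        · rw [dn_xp]
    choose p hp1 hp2 using hch
    obtain ⟨e, he⟩ : ∃ e : ℕ → ℕ × ℕ, Function.Surjective e := exists_surjective_nat _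
    refine ⟨fun n => p (e n), fun n => hp1 _, fun x hx m => ?_⟩
    obtain ⟨ι, hι⟩ := hPex x hx m
    obtain ⟨n, rfl⟩ := he ι
    exact ⟨n, hPP _ _ _ x m (hp2 _ ⟨x, m, hι⟩) hι⟩
  · -- extension of automorphisms
    intro x hx m
    refine ⟨{m}, finite_singleton m, ?_, ?_⟩
    · intro c hc
      rw [mem_singleton_iff.1 hc]
      exact hself x hx m
    · intro y hy n φ hφ ψ hψ hfix
      set e : {k // D y k n} := φ ⟨m, hself x hx m⟩ with he
      have hψe : ψ e = e := hfix ⟨m, hself x hx m⟩ rfl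
      have hseg : ∀ k, D y k n ↔ D y k e := by
        intro k
        constructor
        · intro h1
          obtain ⟨p, hp⟩ := φ.surjective ⟨k, h1⟩
          have h2 := (hφ.2 p ⟨m, hself x hx m⟩).2 p.2
          rw [hp] at h2
          exact h2
        · exact fun h1 => hPre.trans y hy _ _ _ h1 e.2
      let E : {k // D y k n} ≃ {k // ¬ Bg β (dn y) e k} := Equiv.subtypeEquivRight hseg
      have l1 := (xp_eq_iff _ _ _).1 hy.2
      obtain ⟨f1, f2, f3⟩ := map_rel (α := {k // D y k n}) (S := y) (S' := y)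
        (fun a => (a : ℕ)) (fun a => (ψ a : ℕ)) hψ.1
      obtain ⟨σ, g1, g2, g3, g4⟩ := hX Γ g hg (dn y) β Λ e (hKMB _ hy.1) hβ (hKOE _ hy.1)
        (hKCov _ hy.1 e)
        (E.symm.trans (ψ.trans E))
        (fun a b => by rw [lt_dn, lt_dn]; exact f1 (E.symm a) (E.symm b))
        (fun n a b => by rw [ac_dn, ac_dn]; exact f2 _ (E.symm a) (E.symm b))
        (fun n a => by rw [co_dn, co_dn]; exact f3 n (E.symm a))
        (fun j a b => by rw [l1, l1]; exact f2 _ (E.symm a) (E.symm b))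
        (fun a ha => by
          have h1 : E.symm a = e := Subtype.ext ha
          show ((ψ (E.symm a) : {k // D y k n}) : ℕ) = e
          rw [h1, hψe])
      obtain ⟨-, h6⟩ := iso_BgLr hET Λ (Y := dn y) (Y' := dn y) hβ (σ := σ) g1 g2 g3
      refine ⟨σ, fun i v => ?_, fun p => ?_⟩
      · simp only [lt_dn] at g1
        simp only [ac_dn] at g2
        simp only [co_dn] at g3
        refine rel_map (α := ℕ) (S := y) (S' := y) id σ (fun a b => ?_) g1 (fun n a b => ?_) g3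
          i v
        · exact (σ.injective.eq_iff).symm
        · obtain ⟨k, rfl | rfl⟩ : ∃ k, n = 2 * k ∨ n = 2 * k + 1 := ⟨n / 2, by omega⟩
          · rw [← l1, ← l1]; exact h6 k a b
          · exact g2 k a b
      · exact g4 (E p)

end main

end Pool.Agent.Y560.TF
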