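import Pool.Agent.Y560.TF.Stm
import Pool.Agent.Y560.TG.REC
import Pool.Agent.Y560.TT.Min

/-!
Project TF: the recursion.
-/

set_option autoImplicit false

namespace Pool.Agent.Y560.TF

open Set MeasureTheory
open Pool.Agent.H899R2.VP (St Adj PIso BF IsoOn idOn inv comp zipSet)
open Pool.Agent.H533R2.VO (RS lift put OS Ic RIso Dich VC BlkV S_FINAL)
open Pool.Agent.H566P (ar R2 v2 a0 a1 lt ac co mk S_ACC S_MSG)
open Pool.Agent.Y560.TG (acc msg lt_mk ac_mk co_mk R2_ext piso_iff riso_iff riso_isoOn meas_lt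
  meas_ac meas_co meas_into cont_into piso_lt piso_ac piso_co piso_eq ex lt_ex ac_ex co_ex_even
  co_ex_odd piso_ex orb orb_ex Nm Off Sm Thin Few bf_trans0 bf_symm0 iso_trans0 iso_symm0
  iso_refl0 S_EXT S_GL S_MAT S_BP mat pick Se rdn cont_rdn bl le_mul_om le_bl bl_mono bl_succ
  bl_add_nat bl_lt bl_le)
open Pool.Agent.Y560.TT (add_nat_lt add_omega_lt)

/-- big at all levels -/
def Bi (α : Ordinal.{0}) (R : R2) (y z : ℕ) : Prop :=
  ¬ orb R y z ∧ ∀ n, ¬ Sm (bl α n) (lb R y) (Ob R y z)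

/-- the domains of the recursion -/
structure Dom (α : Ordinal.{0}) (R : R2) (E : Set ℕ) : Prop where
  ne : E.Nonempty
  inv : ∀ n x z, ac R n x z → (x ∈ E ↔ z ∈ E)
  cls : ∀ x ∈ E, ∀ v ∈ E, Ob R x v ⊆ E
  out : ∀ x ∉ E, ∀ e ∈ E, E ⊆ Ob R x e
  few : ∀ γ, α ≤ γ → γ < Ordinal.omega 1 → Few γ (Nm E R)
  big : ∀ x ∉ E, ∀ e ∈ E, ¬ Sm α (lb (Nm E R) x) (Ob R x e)
  inf : ∀ n, ¬ Thin (bl α n) (Nm E R)

theorem Bi.bg {α : Ordinal.{0}} {R : R2} {y z : ℕ} (h : Bi α R y z) : Bg α R y z :=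
  ⟨h.1, fun h1 => h.2 0 (h1.mono (le_bl 0))⟩

section

variable {Γ : Type} [Group Γ] {g : ℕ → Γ} {R : R2} {α : Ordinal.{0}}

theorem dom_cls (hG : S_GEO) (hK : S_K1) (hS : S_SUB) (hI : S_SIC) (hg : Function.Surjective g)
    (hR : TR g R) (hα : Ordinal.omega0 ≤ α) (hfew : Few α R)
    {y z : ℕ} (h : Bi α R y z) : Dom α R (Ob R y z) := by
  obtain ⟨g1, g2, g3, g6, g7, g8, g9, g11, -, -, -, -, -⟩ := hG Γ g hg R hR
  refine ⟨⟨z, g1 y z⟩, fun n x z' h1 => g3 n y z x z' h1, fun x hx v hv => g7 y z x v hx hv,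
    fun x hx e he => ?_, fun γ h1 h2 => ?_, fun x hx e he => ?_, fun n h1 => ?_⟩
  · have h1 := g8 y z x hx
    rw [g2 x z e (h1 he)]
    exact h1
  · exact hK Γ g hg R y z γ hR h.1 (hα.trans h1) h2 (hfew.mono h1)
  · have h1 := g8 y z x hx
    rw [g2 x z e (h1 he)]
    intro h2
    exact h.bg.2 (hS Γ g hg R y z x (Ob R y z) α hR hα h.1 hx subset_rfl h2)
  · exact h.2 n (hI Γ g hg R y z (bl α n) hR h.1 (hα.trans (le_bl n)) h1)

theorem claimA (hG : S_GEO) (hN : S_NSM) (hP : S_PSL) (hC : S_C1) (hg : Function.Surjective g)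
    (hR : TR g R) (hα : Ordinal.omega0 ≤ α) (hα1 : α < Ordinal.omega 1) (hfew : Few α R)
    {E : Set ℕ} (h : Dom α R E) {u : ℕ} (hu : u ∈ E) : ∃ v ∈ E, Bi α R u v := by
  obtain ⟨g1, g2, g3, g6, g7, g8, g9, g11, -, -, -, -, -⟩ := hG Γ g hg R hR
  by_contra hcon
  push Not at hcon
  have h1 : ∀ v, ∃ n, v ∈ E → ¬ orb R u v → Sm (bl α n) (lb R u) (Ob R u v) := by
    intro v
    by_cases hv : v ∈ E ∧ ¬ orb R u v
    · have h2 := hcon v hv.1
      unfold Bi at h2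
      push Not at h2
      obtain ⟨n, hn⟩ := h2 hv.2
      exact ⟨n, fun _ _ => hn⟩
    · exact ⟨0, fun h2 h3 => absurd ⟨h2, h3⟩ hv⟩
  choose nn hnn using h1
  obtain ⟨D, hD⟩ : ∃ D : Finset ℕ, ∀ v, Bg α R u v → ∃ d ∈ D, v ∈ Ob R u d := by
    by_contra hcon2
    push Not at hcon2
    obtain ⟨f, hf1, hf2⟩ := exists_seq_of_forall_finset_exists (fun v => Bg α R u v)
      (fun x y => y ∉ Ob R u x) (fun s _ => hcon2 s)
    refine hC Γ g hg α R u hR hα hα1 hfew ⟨f, hf1, fun j k hjk => ?_⟩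
    rcases lt_or_gt_of_ne hjk with h2 | h2
    · intro h3
      apply hf2 j k h2
      rw [g2 u (f k) (f j) h3]
      exact g1 u (f k)
    · exact hf2 k j h2
  obtain ⟨N, hNN⟩ : ∃ N, ∀ d ∈ D, nn d ≤ N := ⟨D.sup nn, fun d hd => Finset.le_sup hd⟩
  have h2 : ∀ v ∈ E, ¬ orb R u v → Sm (bl α N) (lb R u) (Ob R u v) := by
    intro v hv hov
    by_cases h3 : Bg α R u v
    · obtain ⟨d, hd, h4⟩ := hD v h3
      have h5 : Ob R u v = Ob R u d := g2 u d v h4
      have h6 : d ∈ Ob R u v := by rw [h5]; exact g1 u d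
      have h7 : d ∈ E := h.cls u hu v hv h6
      have h8 : ¬ orb R u d := by
        intro h9
        apply hov
        have := (g9 u d).2 d h9
        rw [this] at h4
        exact h4
      rw [h5]
      exact (hnn d h7 h8).mono (bl_mono (hNN d hd))
    · have h4 : Sm α (lb R u) (Ob R u v) := by
        by_contra h5
        exact h3 ⟨hov, h5⟩
      exact h4.mono (le_bl N)
  refine h.inf (N + 1) (hP Γ g hg (Nm E R) u (bl α N) (bl α (N + 1)) (tr_nm hR)
    (hα.trans (le_bl N)) (by exact_mod_cast bl_add_nat α N 2) (bl_lt hα1 _)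
    (h.few _ (le_bl _) (bl_lt hα1 _)) fun z hz => ?_)
  have hz' : ¬ orb R u z := fun h3 => hz ((orb_ex _ _ _ _).2 h3)
  obtain ⟨n1, n2, n3⟩ := hN R E (Ob R u z) u (bl α N) (hα.trans (le_bl N))
  rw [n3]
  by_cases hzE : z ∈ E
  · exact (n1 (h.cls u hu z hzE)).1 (h2 z hzE hz')
  · apply n2
    rw [Set.disjoint_left]
    intro t ht htE
    apply hzE
    have h3 := g2 u z t ht
    apply h.cls u hu t htE
    rw [h3]
    exact g1 u z

theorem claimB (hG : S_GEO) (hN : S_NSM) (hP : S_PSL) (hC : S_C1) (hK : S_K1) (hS : S_SUB)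
    (hI : S_SIC) (hO : S_OE) (hg : Function.Surjective g)
    (hR : TR g R) (hα : Ordinal.omega0 ≤ α) (hα1 : α < Ordinal.omega 1) (hfew : Few α R)
    {E : Set ℕ} (h : Dom α R E) :
    ∃ u ∈ E, ∃ v ∈ E, ∃ v' ∈ E, Bi α R u v ∧ Bg α R u v' ∧ v' ∉ Ob R u v := by
  obtain ⟨g1, g2, g3, g6, g7, g8, g9, g11, -, -, -, -, -⟩ := hG Γ g hg R hR
  by_contra hcon
  push Not at hcon
  have hmul : α * Ordinal.omega0 < Ordinal.omega 1 :=
    Ordinal.isPrincipal_mul_omega 1 hα1 Ordinal.omega0_lt_omega_one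
  have hnsm := fun X u => hN R E X u α hα
  -- the big classes of the structure with names
  have b1 : ∀ u v, Bg α (Nm E R) u v ↔ ¬ orb R u v ∧ ¬ Sm α (lb (Nm E R) u) (Ob R u v) := by
    intro u v
    unfold Bg
    rw [(hnsm (Ob R u v) u).2.2 u v]
    refine and_congr_left fun _ => not_congr ?_
    exact orb_ex _ _ _ _
  have b2 : ∀ u ∈ E, ∀ v ∈ E, (Bg α (Nm E R) u v ↔ Bg α R u v) := by
    intro u hu v hv
    rw [b1, Bg, (hnsm (Ob R u v) u).1 (h.cls u hu v hv)]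
  have b3 : ∀ u v, Bg α (Nm E R) u v → ¬ Disjoint (Ob R u v) E := fun u v h1 h2 =>
    ((b1 u v).1 h1).2 ((hnsm (Ob R u v) u).2.1 h2)
  have b4 : ∀ u ∈ E, ∀ v, Bg α (Nm E R) u v → v ∈ E := by
    intro u hu v h1
    by_contra hv
    apply b3 u v h1
    rw [Set.disjoint_left]
    intro t ht htE
    apply hv
    apply h.cls u hu t htE
    rw [g2 u v t ht]
    exact g1 u v
  obtain ⟨e0, he0⟩ := h.ne
  have b5 : ∀ u ∉ E, ∀ v, (Bg α (Nm E R) u v ↔ v ∈ Ob R u e0) := by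
    intro u hu v
    have h0 : ¬ orb R u e0 := by
      rintro ⟨n, hn⟩
      exact hu ((h.inv n u e0 hn).2 he0)
    constructor
    · intro h1
      by_contra hv
      apply b3 u v h1
      rw [Set.disjoint_left]
      intro t ht htE
      apply hv
      have h2 := h.out u hu e0 he0 htE
      rw [← g2 u e0 t h2, g2 u v t ht]
      exact g1 u v
    · intro h1
      rw [b1]
      have h2 := g2 u e0 v h1
      refine ⟨fun h3 => h0 ?_, ?_⟩
      · have h4 := (g9 u v).2 v h3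
        have h5 : e0 ∈ Ob R u v := by rw [h2]; exact g1 u e0
        rw [h4] at h5
        exact h5
      · rw [h2]
        exact h.big u hu e0 he0
  have b6 : ∀ u ∈ E, ∃ v0 ∈ E, Bi α R u v0 ∧ ∀ v, Bg α (Nm E R) u v → v ∈ Ob R u v0 := by
    intro u hu
    obtain ⟨v0, h1, h2⟩ := claimA hG hN hP hC hg hR hα hα1 hfew h hu
    refine ⟨v0, h1, h2, fun v h3 => ?_⟩
    have hv := b4 u hu v h3
    exact hcon u hu v0 h1 v hv h2 ((b2 u hu v hv).1 h3)
  have hOE : OneEnd α (Nm E R) := by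
    refine ⟨fun u => ?_, fun u v v' h1 h2 => ?_, fun u v w h1 h2 => ?_⟩
    · by_cases hu : u ∈ E
      · obtain ⟨v, h1, h2⟩ := claimA hG hN hP hC hg hR hα hα1 hfew h hu
        exact ⟨v, (b2 u hu v h1).2 h2.bg⟩
      · exact ⟨e0, (b5 u hu e0).2 (g1 u e0)⟩
    · rw [(hnsm (Ob R u v) u).2.2 u v]
      by_cases hu : u ∈ E
      · obtain ⟨v0, -, -, h3⟩ := b6 u hu
        rw [g2 u v0 v (h3 v h1)]
        exact h3 v' h2
      · rw [g2 u e0 v ((b5 u hu v).1 h1)]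
        exact (b5 u hu v').1 h2
    · have key : w ∈ Ob R u v := by
        by_cases hu : u ∈ E
        · obtain ⟨v0, hv0, h3, h4⟩ := b6 u hu
          have hvE := b4 u hu v h1
          have hv := h4 v h1
          have hD := dom_cls hG hK hS hI hg hR hα hfew h3
          obtain ⟨w', h5, h6⟩ := claimA hG hN hP hC hg hR hα hα1 hfew hD hv
          have hwE := b4 v hvE w h2
          have hsub : Ob R u v0 ⊆ E := h.cls u hu v0 hv0
          have h7 : w ∈ Ob R v w' :=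
            hcon v hvE w' (hsub h5) w hwE h6 ((b2 v hvE w hwE).1 h2)
          rw [g2 u v0 v hv]
          exact hD.cls v hv w' h5 h7
        · have hv := (b5 u hu v).1 h1
          rw [g2 u e0 v hv]
          by_cases hvE : v ∈ E
          · exact h.out u hu e0 he0 (b4 v hvE w h2)
          · have h3 := (b5 v hvE w).1 h2
            exact g7 u e0 v e0 hv (g1 u e0) h3
      rw [b1] at h1 ⊢
      have h3 := g2 u v w key
      refine ⟨fun h4 => h1.1 ?_, ?_⟩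
      · have h5 := (g9 u w).2 w h4
        have h6 : v ∈ Ob R u w := by rw [h3]; exact g1 u v
        rw [h5] at h6
        exact h6
      · rw [h3]
        exact h1.2
  have h1 := hO Γ g hg (Nm E R) α (tr_nm hR) hα hα1 (h.few _ le_mul_om hmul) hOE
  refine h.inf 1 (h1.mono ?_)
  have h2 := bl_add_nat α 0 1
  unfold bl at h2 ⊢
  simpa using h2

end

theorem t_REC (hG : S_GEO) (hT : S_NMQ) (hN : S_NSM) (hP : S_PSL) (hC1 : S_C1) (hC2 : S_C2)
    (hK : S_K1) (hS : S_SUB) (hI : S_SIC) (hO : S_OE) : S_REC := by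
  classical
  intro Γ _ g hg R α hR hα hα1 hfew
  obtain ⟨g1, g2, g3, g6, g7, g8, g9, g11, -, -, -, -, -⟩ := hG Γ g hg R hR
  obtain ⟨t6, t7⟩ := hT
  by_contra hnot
  have hinf : ∀ n, ¬ Thin (bl α n) R := fun n h => hnot (h.mono (bl_le α n))
  have hodd : ∀ (o : Ordinal.{0}) (W : R2), 0 < o →
      BF (lift (Nm univ R)) (lift W) univ univ o ∅ → ∀ k x, ¬ co W (2 * k + 1) x := by
    intro o W ho h k x h1
    obtain ⟨x0, -, h2⟩ := h.back ho (mem_univ x)
    have h3 := (piso_co h2.piso (n := 2 * k + 1) (mem_insert _ _)).2 h1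
    unfold Nm at h3
    rw [co_ex_odd] at h3
    exact h3.2 trivial
  have huniv : Dom α R univ := by
    refine ⟨⟨0, trivial⟩, fun _ _ _ _ => Iff.rfl, fun _ _ _ _ => subset_univ _,
      fun x hx => absurd trivial hx, fun γ h1 h2 => ?_, fun x hx => absurd trivial hx,
      fun n h1 => ?_⟩
    · have hγ0 : 0 < γ := Ordinal.omega0_pos.trans_le (hα.trans h1)
      rintro ⟨c, hc1, hc2, hc3⟩
      refine (hfew.mono h1) ⟨fun A => rdn (c A), cont_rdn.comp hc1, fun A => ?_,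
        fun A A' h => hc3 A A' ?_⟩
      · have h3 : c A = Nm univ (rdn (c A)) := by
          refine R2_ext (fun x y => ?_) (fun n x y => ?_) (fun n x => ?_)
          · unfold Nm; rw [lt_ex]; unfold rdn; rw [lt_mk]
          · unfold Nm; rw [ac_ex]; unfold rdn; rw [ac_mk]
          · unfold Nm
            obtain ⟨k, rfl | rfl⟩ : ∃ k, n = 2 * k ∨ n = 2 * k + 1 := ⟨n / 2, by omega⟩
            · rw [co_ex_even]; unfold rdn; rw [co_mk]
            · rw [co_ex_odd]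
              exact ⟨fun h4 => absurd h4 (hodd γ _ hγ0 (hc2 A) k x),
                fun h4 => absurd trivial h4.2⟩
        have h4 := hc2 A
        rw [h3, t6 R _ univ γ (hα.trans h1)] at h4
        exact h4.subset (empty_subset _)
      · obtain ⟨σ, e1, e2, e3⟩ := riso_iff.1 h
        refine riso_iff.2 ⟨σ, fun x y => ?_, fun n x y => ?_, fun n x => ?_⟩
        · have := e1 x y
          unfold rdn at this
          rwa [lt_mk, lt_mk] at this
        · have := e2 n x y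
          unfold rdn at this
          rwa [ac_mk, ac_mk] at this
        · obtain ⟨k, rfl | rfl⟩ : ∃ k, n = 2 * k ∨ n = 2 * k + 1 := ⟨n / 2, by omega⟩
          · have := e3 k x
            unfold rdn at this
            rwa [co_mk, co_mk] at this
          · exact ⟨fun h4 => absurd h4 (hodd γ _ hγ0 (hc2 A') k _),
              fun h4 => absurd h4 (hodd γ _ hγ0 (hc2 A) k _)⟩
    · obtain ⟨f, hf⟩ := h1
      have hch : ∀ n, ∃ V : R2, (∃ V : R2, RIso (f n) (Nm univ V)) → RIso (f n) (Nm univ V) := by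
        intro n
        by_cases h2 : ∃ V : R2, RIso (f n) (Nm univ V)
        · exact ⟨h2.choose, fun _ => h2.choose_spec⟩
        · exact ⟨R, fun h3 => absurd h3 h2⟩
      choose V hV using hch
      refine hinf n ⟨V, fun W hW => ?_⟩
      have h2 : BF (lift (Nm univ R)) (lift (Nm univ W)) univ univ (bl α n) ∅ := by
        rw [t6 R W univ _ (hα.trans (le_bl n))]
        refine hW.subset ?_
        rintro ⟨x, y⟩ ⟨-, h3⟩
        exact absurd trivial h3
      obtain ⟨m, hm⟩ := hf _ h2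
      refine ⟨m, ?_⟩
      have h3 := iso_trans0 (iso_symm0 (riso_isoOn.1 (hV m ⟨W, hm⟩))) (riso_isoOn.1 hm)
      have h4 := (t7 (V m) W univ).1 (riso_isoOn.2 h3)
      exact riso_isoOn.2 (h4.mono (empty_subset _))
  -- the comb
  let T : Set ℕ × ℕ × ℕ × ℕ → Prop := fun s => Dom α R s.1 ∧ s.2.1 ∈ s.1 ∧ s.2.2.1 ∈ s.1 ∧
    s.2.2.2 ∈ s.1 ∧ Bi α R s.2.1 s.2.2.1 ∧ Bg α R s.2.1 s.2.2.2 ∧ s.2.2.2 ∉ Ob R s.2.1 s.2.2.1
  have hstep : ∀ E, Dom α R E → ∃ s, T s ∧ s.1 = E := by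
    intro E hE
    obtain ⟨u, hu, v, hv, v', hv', h1, h2, h3⟩ :=
      claimB hG hN hP hC1 hK hS hI hO hg hR hα hα1 hfew hE
    exact ⟨(E, u, v, v'), ⟨hE, hu, hv, hv', h1, h2, h3⟩, rfl⟩
  have hnext : ∀ s : {s // T s}, ∃ s' : {s // T s}, s'.1.1 = Ob R s.1.2.1 s.1.2.2.1 := by
    rintro ⟨s, hs⟩
    obtain ⟨s', h1, h2⟩ := hstep _ (dom_cls hG hK hS hI hg hR hα hfew hs.2.2.2.2.1)
    exact ⟨⟨s', h1⟩, h2⟩
  choose nx hnx using hnext
  obtain ⟨s0, hs0, -⟩ := hstep univ huniv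
  let f : ℕ → {s // T s} := fun n => Nat.rec ⟨s0, hs0⟩ (fun _ s => nx s) n
  have hf : ∀ n, (f (n + 1)).1.1 = Ob R (f n).1.2.1 (f n).1.2.2.1 := fun n => hnx (f n)
  have hy : ∀ n, (f (n + 1)).1.2.1 ∈ Ob R (f n).1.2.1 (f n).1.2.2.1 := by
    intro n
    rw [← hf]
    exact (f (n + 1)).2.2.1
  have hE : ∀ n, Ob R (f n).1.2.1 (f (n + 1)).1.2.1 = Ob R (f n).1.2.1 (f n).1.2.2.1 :=
    fun n => g2 _ _ _ (hy n)
  refine hC2 Γ g hg α R hR hα hα1 hfew ⟨fun n => (f n).1.2.1, fun n => (f n).1.2.2.2,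
    fun k => (f k).2.2.2.2.2.2.1, fun k => ?_, fun k => ?_, fun k => ?_, fun k => ?_⟩
  · intro h1
    have h2 := (g9 (f k).1.2.1 (f (k + 1)).1.2.1).2 _ h1
    rw [hE k] at h2
    have h3 := g1 (f k).1.2.1 (f k).1.2.2.1
    rw [h2] at h3
    exact (f k).2.2.2.2.2.1.1 h3
  · show (f k).1.2.2.2 ∉ Ob R (f k).1.2.1 (f (k + 1)).1.2.1
    rw [hE k]
    exact (f k).2.2.2.2.2.2.2
  · show (f (k + 1)).1.2.2.2 ∈ Ob R (f k).1.2.1 (f (k + 1)).1.2.1
    rw [hE k, ← hf k]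
    exact (f (k + 1)).2.2.2.2.1
  · show (f (k + 2)).1.2.1 ∈ Ob R (f k).1.2.1 (f (k + 1)).1.2.1
    rw [hE k, ← hf k]
    have h1 : (f (k + 2)).1.2.1 ∈ (f (k + 2)).1.1 := (f (k + 2)).2.2.1
    rw [hf (k + 1)] at h1
    exact (f (k + 1)).2.1.cls _ (f (k + 1)).2.2.1 _ (f (k + 1)).2.2.2.1 h1

end Pool.Agent.Y560.TF
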