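import Pool.Agent.Y560.TF.Nmq
import Pool.Agent.Y560.TF.REC
import Pool.Agent.Y560.TF.FIN
import Pool.Agent.Y560.TF.OE
import Pool.Agent.Y547.TF.Tbf
import Pool.Agent.Y547.TF.Off
import Pool.Agent.Y239.TF.Trq
import Pool.Agent.Y899.TF.Geo
import Pool.Agent.Y899.TF.Typ
import Pool.Agent.Y899.TF.Cl
import Pool.Agent.Y839.TF.Fill
import Pool.Agent.Y692.TF.SI
import Pool.Agent.Y692.TF.C1
import Pool.Agent.Y108.TF.Sub
import Pool.Agent.Y108.TF.Sha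
import Pool.Agent.Y108.TF.Pos
import Pool.Agent.Y48.TF.FAM1
import Pool.Agent.Y914.TF.Fam2
import Pool.Agent.Y914.TF.Seq
import Pool.Agent.Y155.TF.C2
import Pool.Agent.Y417.TF.PL
import Pool.Agent.Y417.TF.Few
import Pool.Agent.Y319.TF.K1
import Pool.Agent.Y888.TF.Labq
import Pool.Agent.Y888.TF.Cut
import Pool.Agent.Y350.TF.VM
import Pool.Agent.H70TF.PSL
import Pool.Agent.Y484.TF.Oet
import Pool.Agent.Y290.TF.OES
import Pool.Agent.Y574.TF.Extw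
import Pool.Agent.Y664.TF.Star
import Pool.Agent.Y362.TF.M1
import Pool.Agent.Y41.TF.TL
import Pool.Agent.Y306.TFBC
import Pool.Agent.Y960.TF.GD
import Pool.Agent.Y768.TF.OEB

set_option autoImplicit false

/-!
Project TF: the assembly.
-/

namespace Pool.Agent.Y560.TF

theorem fin : S_FIN := by
  -- the abstract geometry
  have gSTAR := Pool.Agent.Y664.TF.t_STAR
  have gTYP := Pool.Agent.Y899.TF.t_TYP gSTAR
  have gEQV := Pool.Agent.Y899.TF.t_EQV gSTAR gTYP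
  have gCUT := Pool.Agent.Y888.TF.t_CUT
  have gCC := Pool.Agent.Y888.TF.t_CC gCUT gTYP
  have gM1 := Pool.Agent.Y362.TF.t_M1 gEQV gTYP gCUT gCC
  have gCL := Pool.Agent.Y899.TF.ClJob.t_CL gEQV gTYP
  have gTL := Pool.Agent.Y41.TF.t_TL gEQV gTYP
  have gLU := Pool.Agent.Y41.TF.t_LU gEQV gTYP gCUT gCC gM1
  have gBC := Pool.Agent.Y306.TFBC.t_BC gEQV gTYP gCUT gCL gM1
  have gGD := Pool.Agent.Y960.TF.t_GD gEQV gTYP gSTAR
  have gPOS := Pool.Agent.Y108.TF.Pos.t_POS gEQV gTYP gCUT gCC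
  -- the structures
  have hGEO := Pool.Agent.Y899.TF.GeoJob.t_GEO gEQV gM1 gCL gTL gLU gBC
  have hGDR := Pool.Agent.Y899.TF.GeoJob.t_GDR gEQV gGD
  have hEXT := t_EXT
  have hGL := t_GL
  have hMAT := t_MAT
  have hBP := t_BP
  have hNMQ := t_NMQ
  have hTBF := Pool.Agent.Y547.TF.t_TBF
  have hTRQ := Pool.Agent.Y239.TF.t_TRQ hEXT
  have hMQ := Pool.Agent.Y239.TF.t_MQ
  have hFILL := Pool.Agent.Y839.TF.t_FILL hGL hMAT hEXT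
  have hFILI := Pool.Agent.Y839.TF.t_FILI hTRQ hGEO
  have hSI1 := Pool.Agent.Y692.TF.SI.t_SI1 hFILL hNMQ
  have hSIC := Pool.Agent.Y692.TF.SI.t_SIC hSI1 hTRQ hGEO
  have hNSM := Pool.Agent.Y692.TF.SI.t_NSM
  have hOFF := Pool.Agent.Y547.TF.t_OFF hTBF hTRQ hGEO
  have hSUB := Pool.Agent.Y108.TF.Sub.t_SUB hEXT hTRQ hGEO hFILL hOFF hFILI
  have hFAM1 := Pool.Agent.Y48.TF.t_FAM1 hGL hTBF hGEO hTRQ
  have hFAM2 := Pool.Agent.Y914.TF.t_FAM2 hFAM1 hGEO hTRQ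
  have hSEQ := Pool.Agent.Y914.TF.t_SEQ hFILL hGEO hOFF hTRQ hGDR
  have hC1 := Pool.Agent.Y692.TF.t_C1 hGEO hTRQ hFAM1 hFAM2 hSEQ hBP
  have hC2 := Pool.Agent.Y155.TF.t_C2 hGEO hTRQ hFAM1 hFAM2 hSEQ
  have hPL := Pool.Agent.Y417.TF.t_PL hMAT
  have hNFEW := Pool.Agent.Y417.TF.t_NFEW hPL hBP hNMQ
  have hK1 := Pool.Agent.Y319.TF.t_K1 hNFEW hOFF hFILI hTRQ hGEO
  have hLBC := Pool.Agent.Y888.TF.t_LBC
  have hLABQ := Pool.Agent.Y888.TF.t_LABQ hLBC hMQ hTRQ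
  have hVM := Pool.Agent.Y350.TF.t_VM hEXT
  have hSHA := Pool.Agent.Y108.TF.Sha.t_SHA gPOS hGEO
  have hPSL := Pool.Agent.H70TF.t_PSL hGEO hTRQ hTBF hLABQ hBP hSHA hVM hMQ
  have hOEB := Pool.Agent.Y768.TF.t_OEB hSUB hNSM hGEO
  have hOET := Pool.Agent.Y484.TF.t_OET hEXT hTRQ
  have hOEM := Pool.Agent.Y484.TF.t_OEM hOET hTRQ hMQ
  have hOES := Pool.Agent.Y290.TF.t_OES hNFEW hPSL hSI1 hNSM hOFF hTRQ hGEO hOEB hOET
  have hEXTW := Pool.Agent.Y574.TF.t_EXTW hGEO hOEB hTRQ hFILL hOET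
  have hHEXT := Pool.Agent.Y574.TF.t_HEXT hOEB
  have hOE := t_OE hTBF hLABQ hOEB hOET hOEM hOES hEXTW hHEXT
  exact t_FIN (t_REC hGEO hNMQ hNSM hPSL hC1 hC2 hK1 hSUB hSIC hOE)

/-- The final form: semilinear orders with an action of an arbitrary countable group. -/
theorem out (Γ : Type) [Group Γ] [Countable Γ] (B : Set (Pool.Agent.H566P.XG Γ))
    (hB : MeasurableSet B) (hLO : ∀ x ∈ B, TO x)
    (hinv : ∀ x ∈ B, ∀ (y : Pool.Agent.H566P.XG Γ) (σ : Equiv.Perm ℕ),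
      Pool.Agent.H566P.Isom σ x y → y ∈ B) :
    (∃ f : ℕ → Pool.Agent.H566P.XG Γ, ∀ x ∈ B, ∃ n, ∃ σ : Equiv.Perm ℕ,
      Pool.Agent.H566P.Isom σ (f n) x) ∨
    (∃ c : (ℕ → Bool) → Pool.Agent.H566P.XG Γ, Continuous c ∧ (∀ A, c A ∈ B) ∧
      ∀ A A', (∃ σ : Equiv.Perm ℕ, Pool.Agent.H566P.Isom σ (c A) (c A')) → A = A') :=
  t_OUTF fin Γ B hB hLO hinv

end Pool.Agent.Y560.TF
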