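import Pool.Agent.Y560.TF.Ge0

/-!
Project TF: the statements on the geometry of the classes.
-/

set_option autoImplicit false

namespace Pool.Agent.Y560.TF.Ge

/-- If `t` separates two points of the orbit of `s` with the same label, and two points of the
orbit of `s'` with the same label, then `IN Γ u s` and `IN Γ u s'` are the same. -/
def S_STAR : Prop := ∀ (Γ X : Type) [Group Γ] [PartialOrder X] [MulAction Γ X] [Tr Γ X]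
  (u s s' t : X), DD Γ u s → DD Γ u s' → IN Γ u s t → IN Γ u s' t →
  ∀ x, (IN Γ u s x ↔ IN Γ u s' x)

/-- The classes over a point. -/
def S_EQV : Prop := ∀ (Γ X : Type) [Group Γ] [PartialOrder X] [MulAction Γ X] [Tr Γ X],
  (∀ u v : X, v ∈ OB Γ u v) ∧
  (∀ u v x : X, x ∈ OB Γ u v → OB Γ u x = OB Γ u v) ∧
  (∀ (u v x : X) (γ : Γ), γ • x ∈ OB Γ u v ↔ x ∈ OB Γ u v) ∧
  (∀ y z : X, y ∈ OB Γ y z ↔ ∃ γ : Γ, γ • y = z) ∧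
  (∀ (y : X) (γ : Γ), OB Γ y (γ • y) = {w | ∃ δ : Γ, δ • y = w})

/-- Elements with the same reduced label lie above comparable cuts, and the elements below the
orbit of `u` in the difference have the same reduced label, and the same label. -/
def S_CUT : Prop := ∀ (Γ X : Type) [Group Γ] [PartialOrder X] [MulAction Γ X] [Tr Γ X]
  (u x x' : X), RL Γ u x x' →
  ((∀ r, r ≤ x → DD Γ u r → r ≤ x') ∨ ∀ r, r ≤ x' → DD Γ u r → r ≤ x) ∧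
  ∀ z, z ≤ x → DD Γ u z → ¬ z ≤ x' → RL Γ u z x ∧
    ∀ z', z' ≤ x → DD Γ u z' → ¬ z' ≤ x' → SL Γ u z z'

/-- Elements of a class with the same label and different cuts: the class is given by some
`IN Γ u s`. -/
def S_CC : Prop := ∀ (Γ X : Type) [Group Γ] [PartialOrder X] [MulAction Γ X] [Tr Γ X]
  (u x x' r : X), x' ∈ OB Γ u x → SL Γ u x x' → DD Γ u r → r ≤ x → ¬ r ≤ x' →
  ∃ s, DD Γ u s ∧ IN Γ u s x

/-- The three types of classes. -/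
def S_TYP : Prop := ∀ (Γ X : Type) [Group Γ] [PartialOrder X] [MulAction Γ X] [Tr Γ X]
  (u v : X),
  (∀ s, DD Γ u s → IN Γ u s v → OB Γ u v = {x | IN Γ u s x}) ∧
  (DD Γ u v → (¬ ∃ s, DD Γ u s ∧ IN Γ u s v) → OB Γ u v = {t | ∃ γ : Γ, γ • v = t}) ∧
  (¬ DD Γ u v → (¬ ∃ s, DD Γ u s ∧ IN Γ u s v) →
    OB Γ u v = {t | ∃ (γ : Γ) (r : X), r ≤ γ • v ∧ r ≤ t ∧ ¬ DD Γ u r}) ∧
  (∀ s x, DD Γ u s → IN Γ u s x → IN Γ u s s) ∧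
  (∀ (γ : Γ) (s x : X), IN Γ u (γ • s) x ↔ IN Γ u s x) ∧
  (∀ (γ δ : Γ) (s : X), DD Γ u s → SL Γ u (γ • s) (δ • s) → γ • s ≠ δ • s → IN Γ u s s)

/-- Elements of a class with the same label compare in the same way with the elements outside. -/
def S_M1 : Prop := ∀ (Γ X : Type) [Group Γ] [PartialOrder X] [MulAction Γ X] [Tr Γ X]
  (u v x x' w : X), x ∈ OB Γ u v → x' ∈ OB Γ u v → SL Γ u x x' → w ∉ OB Γ u v →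
  (x < w ↔ x' < w) ∧ (w < x ↔ w < x')

def S_CL : Prop := ∀ (Γ X : Type) [Group Γ] [PartialOrder X] [MulAction Γ X] [Tr Γ X]
  (y z x v : X), x ∈ OB Γ y z → v ∈ OB Γ y z → OB Γ x v ⊆ OB Γ y z

def S_TL : Prop := ∀ (Γ X : Type) [Group Γ] [PartialOrder X] [MulAction Γ X] [Tr Γ X]
  (y z x : X), x ∉ OB Γ y z → OB Γ y z ⊆ OB Γ x z

def S_LU : Prop := ∀ (Γ X : Type) [Group Γ] [PartialOrder X] [MulAction Γ X] [Tr Γ X]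
  (u z x v v' : X), x ∉ OB Γ u z → v ∈ OB Γ u z → v' ∈ OB Γ u z → SL Γ u v v' → SL Γ x v v'

def S_BC : Prop := ∀ (Γ X : Type) [Group Γ] [PartialOrder X] [MulAction Γ X] [Tr Γ X]
  (y z u u' v : X), y ∉ OB Γ y z → u ∈ OB Γ y z → u' ∈ OB Γ y z → SL Γ y u u' →
  v ∉ OB Γ y z → OB Γ u v = OB Γ u' v

/-- Equal labels in two structures. -/
structure LE (Γ : Type) {X X' : Type} [Group Γ] [PartialOrder X] [MulAction Γ X]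
    [PartialOrder X'] [MulAction Γ X'] (u x : X) (u' x' : X') : Prop where
  a : ∀ γ : Γ, γ • u ≤ x ↔ γ • u' ≤ x'
  b : ∀ γ : Γ, x ≤ γ • u ↔ x' ≤ γ • u'
  e : ∀ γ : Γ, (∃ r, r ≤ x ∧ r ≤ γ • u) ↔ ∃ r, r ≤ x' ∧ r ≤ γ • u'
  d : ∀ γ δ : Γ, (∃ r, r ≤ x ∧ r ≤ γ • u ∧ ¬ r ≤ δ • u) ↔
    ∃ r, r ≤ x' ∧ r ≤ γ • u' ∧ ¬ r ≤ δ • u'

/-- An isomorphism of classes which preserves the label of a good element preserves all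
labels. -/
def S_GD : Prop := ∀ (Γ X X' : Type) [Group Γ] [PartialOrder X] [MulAction Γ X] [Tr Γ X]
  [PartialOrder X'] [MulAction Γ X'] [Tr Γ X'] (u v : X) (u' v' : X') (φ : X → X'),
  (∀ x ∈ OB Γ u v, φ x ∈ OB Γ u' v') → (∀ x' ∈ OB Γ u' v', ∃ x ∈ OB Γ u v, φ x = x') →
  (∀ x ∈ OB Γ u v, ∀ z ∈ OB Γ u v, x ≤ z ↔ φ x ≤ φ z) →
  (∀ (γ : Γ), ∀ x ∈ OB Γ u v, φ (γ • x) = γ • φ x) →
  ∀ x0 ∈ OB Γ u v, (DD Γ u x0 ∨ ∀ z ∈ OB Γ u v, ¬ DD Γ u z) →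
  (DD Γ u' (φ x0) ∨ ∀ z ∈ OB Γ u' v', ¬ DD Γ u' z) →
  LE Γ u x0 u' (φ x0) → ∀ x ∈ OB Γ u v, LE Γ u x u' (φ x)

/-- The cut of `a` is below the cut of `b`, or they are equal and `a` is the maximum of its cut
and `b` is not. -/
def LP (Γ : Type) {X : Type} [Group Γ] [PartialOrder X] [MulAction Γ X] (u a b : X) : Prop :=
  (∃ r, DD Γ u r ∧ r ≤ b ∧ ¬ r ≤ a) ∨
  (DD Γ u a ∧ ¬ DD Γ u b ∧ a ≤ b ∧ ∀ r, DD Γ u r → r ≤ b → r ≤ a)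

/-- Positions. -/
def S_POS : Prop := ∀ (Γ X : Type) [Group Γ] [PartialOrder X] [MulAction Γ X] [Tr Γ X] (u : X),
  (∀ a b : X, DD Γ u a → DD Γ u b → RL Γ u a b → SL Γ u a b ∧ (a ≤ b ∨ b ≤ a)) ∧
  (∀ a : X, ¬ LP Γ u a a) ∧
  (∀ a b : X, RL Γ u a b → LP Γ u a b → ¬ LP Γ u b a) ∧
  (∀ a b c : X, RL Γ u a b → RL Γ u b c → LP Γ u a b → LP Γ u b c → LP Γ u a c) ∧
  (∀ a b c : X, RL Γ u a b → RL Γ u b c → LP Γ u a c → LP Γ u a b ∨ LP Γ u b c) ∧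
  (∀ (γ : Γ) (a b : X), LP Γ u (γ • a) (γ • b) ↔ LP Γ u a b) ∧
  (∀ v a a' b : X, a ∈ OB Γ u v → a' ∈ OB Γ u v → b ∉ OB Γ u v → RL Γ u a a' → RL Γ u a b →
    (LP Γ u a b ↔ LP Γ u a' b) ∧ (LP Γ u b a ↔ LP Γ u b a')) ∧
  (∀ a b x : X, b ∈ OB Γ u a → ((∃ γ : Γ, RL Γ u (γ • a) x) ↔ ∃ γ : Γ, RL Γ u (γ • b) x)) ∧
  (∀ a b : X, b ∉ OB Γ u a → (a < b ↔ DD Γ u a ∧ ((∃ γ : Γ, a ≤ γ • u ∧ γ • u ≤ b) ∨
    (∃ γ δ : Γ, a ≤ γ • u ∧ a ≤ δ • u ∧ ∃ r, r ≤ b ∧ r ≤ γ • u ∧ ¬ r ≤ δ • u) ∨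
    (RL Γ u a b ∧ ¬ LP Γ u b a))))

end Pool.Agent.Y560.TF.Ge
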