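import Pool.Agent.Y560.TG.Base
import Pool.Agent.Y560.TF.GeS

/-!
Project TF: Vaught's conjecture for semilinear orders with an action of an arbitrary countable
group (by automorphisms) and unary predicates. Definitions and basic facts.

From the project TG (linear orders) we use: `acc, msg, lt_mk, ac_mk, co_mk, R2_ext, piso_iff,
riso_iff, riso_isoOn, meas_lt, meas_ac, meas_co, meas_into, cont_into, piso_lt, piso_ac, piso_co,
piso_eq, ex, lt_ex, ac_ex, co_ex_even, co_ex_odd, piso_ex, orb, orb_ex, Nm, Off, Sm, Thin, Few,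
bf_trans0, bf_symm0, iso_trans0, iso_symm0, iso_refl0` and the lemmas on `Sm, Thin, Few`.
-/

set_option autoImplicit false
set_option linter.style.haveILetI false

namespace Pool.Agent.Y560.TF

open Set MeasureTheory
open Pool.Agent.H899R2.VP (St Adj PIso BF IsoOn idOn inv comp zipSet)
open Pool.Agent.H533R2.VO (RS lift put OS Ic RIso Dich VC BlkV S_FINAL)
open Pool.Agent.H566P (ar R2 v2 a0 a1 lt ac co mk S_ACC S_MSG)
open Pool.Agent.Y560.TG (acc msg lt_mk ac_mk co_mk R2_ext piso_iff riso_iff riso_isoOn meas_lt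
  meas_ac meas_co meas_into cont_into piso_lt piso_ac piso_co piso_eq ex lt_ex ac_ex co_ex_even
  co_ex_odd piso_ex orb orb_ex Nm Off Sm Thin Few bf_trans0 bf_symm0 iso_trans0 iso_symm0
  iso_refl0)

/-! ### Definitions -/

/-- `x ≤ y` -/
def le (R : R2) (x y : ℕ) : Prop := x = y ∨ lt R x y

/-- The label of `v` over `u`: `Q R u (4 k) v` says `g k • u ≤ v`, `Q R u (4 k + 1) v` says
`v ≤ g k • u`, `Q R u (4 k + 2) v` says that `v` and `g k • u` have a common lower bound,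
`Q R u (4 * Nat.pair i j + 3) v` says that there is an element below `v` and `g i • u` and not
below `g j • u`. -/
def Q (R : R2) (u m v : ℕ) : Prop :=
  if m % 4 = 0 then ∃ z, ac R (m / 4) u z ∧ le R z v
  else if m % 4 = 1 then ∃ z, ac R (m / 4) u z ∧ le R v z
  else if m % 4 = 2 then ∃ z r, ac R (m / 4) u z ∧ le R r v ∧ le R r z
  else ∃ z z' r, ac R (m / 4).unpair.1 u z ∧ ac R (m / 4).unpair.2 u z' ∧ le R r v ∧ le R r z ∧
    ¬ le R r z'

theorem Q0 (R : R2) (u k v : ℕ) : Q R u (4 * k) v ↔ ∃ z, ac R k u z ∧ le R z v := by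
  unfold Q
  rw [if_pos (by omega), show 4 * k / 4 = k by omega]
theorem Q1 (R : R2) (u k v : ℕ) : Q R u (4 * k + 1) v ↔ ∃ z, ac R k u z ∧ le R v z := by
  unfold Q
  rw [if_neg (by omega), if_pos (by omega), show (4 * k + 1) / 4 = k by omega]
theorem Q2 (R : R2) (u k v : ℕ) :
    Q R u (4 * k + 2) v ↔ ∃ z r, ac R k u z ∧ le R r v ∧ le R r z := by
  unfold Q
  rw [if_neg (by omega), if_neg (by omega), if_pos (by omega),
    show (4 * k + 2) / 4 = k by omega]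
theorem Q3 (R : R2) (u i j v : ℕ) : Q R u (4 * Nat.pair i j + 3) v ↔
    ∃ z z' r, ac R i u z ∧ ac R j u z' ∧ le R r v ∧ le R r z ∧ ¬ le R r z' := by
  unfold Q
  rw [if_neg (by omega), if_neg (by omega), if_neg (by omega),
    show (4 * Nat.pair i j + 3) / 4 = Nat.pair i j by omega, Nat.unpair_pair]

/-- The structure with the labels over `y` as additional predicates. -/
noncomputable def lb (R : R2) (y : ℕ) : R2 := ex (Q R y) R

/-- `v` and `w` have the same label over `y`. -/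
def sl (R : R2) (y v w : ℕ) : Prop := ∀ m, Q R y m v ↔ Q R y m w

/-- `s` lies below a point of the orbit of `u`. -/
def Du (R : R2) (u s : ℕ) : Prop := ∃ n z, ac R n u z ∧ le R s z

/-- Two points of the orbit of `s` with the same label over `u` are separated by `x`. -/
def In (R : R2) (u s x : ℕ) : Prop :=
  ∃ n m z w, ac R n s z ∧ ac R m s w ∧ sl R u z w ∧ le R z x ∧ ¬ le R w x

/-- The class of `v` over `u`. -/
def Ob (R : R2) (u v : ℕ) : Set ℕ :=
  {t | orb R v t ∨ (∃ n z r, ac R n v z ∧ le R r z ∧ le R r t ∧ ¬ Du R u r) ∨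
    ∃ s, Du R u s ∧ In R u s v ∧ In R u s t}

theorem mem_Ob {R : R2} {u v t : ℕ} : t ∈ Ob R u v ↔ orb R v t ∨
    (∃ n z r, ac R n v z ∧ le R r z ∧ le R r t ∧ ¬ Du R u r) ∨
    ∃ s, Du R u s ∧ In R u s v ∧ In R u s t := Iff.rfl

/-- `O` is an invariant set, and elements of `O` with the same label `P` compare in the same way
with the elements outside `O`. -/
def Mod (O : Set ℕ) (P : ℕ → ℕ → Prop) (R : R2) : Prop :=
  (∀ n x z, ac R n x z → (x ∈ O ↔ z ∈ O)) ∧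
  ∀ v ∈ O, ∀ v' ∈ O, (∀ k, P k v ↔ P k v') →
    ∀ u ∉ O, (lt R v u ↔ lt R v' u) ∧ (lt R u v ↔ lt R u v')

/-! ### The action -/

/-- `R` is a semilinear order with an action `t` of `Γ` by automorphisms. -/
structure TA {Γ : Type} [Group Γ] (g : ℕ → Γ) (R : R2) (t : Γ → ℕ → ℕ) : Prop where
  irr : ∀ x, ¬ lt R x x
  tr : ∀ x y z, lt R x y → lt R y z → lt R x z
  sem : ∀ a b c, lt R a c → lt R b c → a = b ∨ lt R a b ∨ lt R b a
  one : ∀ x, t 1 x = x
  mul : ∀ γ δ x, t (γ * δ) x = t γ (t δ x)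
  mono : ∀ γ x y, lt R x y → lt R (t γ x) (t γ y)
  act : ∀ n x y, ac R n x y ↔ t (g n) x = y

/-- The structures considered. -/
def TR {Γ : Type} [Group Γ] (g : ℕ → Γ) (R : R2) : Prop := ∃ t : Γ → ℕ → ℕ, TA g R t

/-- The points, as a type with an order and an action. -/
def Pt {Γ : Type} (_ : R2) (_ : Γ → ℕ → ℕ) : Type := ℕ

section act

variable {Γ : Type} [Group Γ] {g : ℕ → Γ} {R : R2} {t : Γ → ℕ → ℕ}

/-- the order -/
@[reducible] def TA.po (h : TA g R t) : PartialOrder (Pt R t) where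
  le x y := le R x y
  lt x y := lt R x y
  le_refl x := Or.inl rfl
  le_trans x y z := by
    rintro (rfl | h1) (rfl | h2)
    · exact Or.inl rfl
    · exact Or.inr h2
    · exact Or.inr h1
    · exact Or.inr (h.tr _ _ _ h1 h2)
  le_antisymm x y := by
    rintro (rfl | h1) (h2 | h2)
    · rfl
    · rfl
    · exact h2.symm
    · exact absurd (h.tr _ _ _ h1 h2) (h.irr _)
  lt_iff_le_not_ge x y := by
    constructor
    · intro h1
      refine ⟨Or.inr h1, ?_⟩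
      rintro (rfl | h2)
      · exact h.irr _ h1
      · exact h.irr _ (h.tr _ _ _ h1 h2)
    · rintro ⟨rfl | h1, h2⟩
      · exact absurd (Or.inl rfl) h2
      · exact h1

/-- the action -/
@[reducible] def TA.ma (h : TA g R t) : MulAction Γ (Pt R t) where
  smul γ x := t γ x
  one_smul x := h.one x
  mul_smul γ δ x := h.mul γ δ x

theorem TA.tr' (h : TA g R t) : @Ge.Tr Γ (Pt R t) _ h.po h.ma := by
  letI := h.po
  letI := h.ma
  refine ⟨?_, ?_⟩
  · rintro a b c (rfl | h1) (h2 | h2)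
    · exact Or.inr (Or.inl h2)
    · exact Or.inr (Or.inr h2)
    · subst h2; exact Or.inl (Or.inr h1)
    · rcases h.sem _ _ _ h1 h2 with rfl | h3 | h3
      · exact Or.inl (Or.inl rfl)
      · exact Or.inl (Or.inr h3)
      · exact Or.inr (Or.inr h3)
  · rintro γ a b (rfl | h1)
    · exact Or.inl rfl
    · exact Or.inr (h.mono γ _ _ h1)

theorem TA.ac_iff (h : TA g R t) (n x y : ℕ) : ac R n x y ↔ t (g n) x = y := h.act n x y

theorem TA.inv_t (h : TA g R t) (γ : Γ) (x : ℕ) : t γ⁻¹ (t γ x) = x := by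
  rw [← h.mul, inv_mul_cancel, h.one]
theorem TA.inv_t' (h : TA g R t) (γ : Γ) (x : ℕ) : t γ (t γ⁻¹ x) = x := by
  rw [← h.mul, mul_inv_cancel, h.one]
theorem TA.inj (h : TA g R t) (γ : Γ) {x y : ℕ} : t γ x = t γ y ↔ x = y := by
  refine ⟨fun h1 => ?_, fun h1 => by rw [h1]⟩
  rw [← h.inv_t γ x, h1, h.inv_t]
theorem TA.lt_iff (h : TA g R t) (γ : Γ) (x y : ℕ) : lt R (t γ x) (t γ y) ↔ lt R x y := by
  refine ⟨fun h1 => ?_, h.mono γ x y⟩
  have := h.mono γ⁻¹ _ _ h1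
  rwa [h.inv_t, h.inv_t] at this
theorem TA.le_iff (h : TA g R t) (γ : Γ) (x y : ℕ) : le R (t γ x) (t γ y) ↔ le R x y := by
  unfold le
  rw [h.inj, h.lt_iff]
theorem TA.le_trans (h : TA g R t) {x y z : ℕ} (h1 : le R x y) (h2 : le R y z) : le R x z := by
  rcases h1 with rfl | h1
  · exact h2
  · rcases h2 with rfl | h2
    · exact Or.inr h1
    · exact Or.inr (h.tr _ _ _ h1 h2)
theorem TA.cmp (h : TA g R t) {a b c : ℕ} (h1 : le R a c) (h2 : le R b c) :
    le R a b ∨ le R b a := by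
  letI := h.po
  letI := h.ma
  exact h.tr'.semi a b c h1 h2

theorem orb_iff (hg : Function.Surjective g) (h : TA g R t) {u v : ℕ} :
    orb R u v ↔ ∃ γ, t γ u = v := by
  unfold orb
  constructor
  · rintro ⟨n, hn⟩
    exact ⟨g n, (h.act _ _ _).1 hn⟩
  · rintro ⟨γ, hγ⟩
    obtain ⟨n, rfl⟩ := hg γ
    exact ⟨n, (h.act _ _ _).2 hγ⟩

theorem Q0_iff (h : TA g R t) {u k v : ℕ} : Q R u (4 * k) v ↔ le R (t (g k) u) v := by
  rw [Q0]
  simp only [h.act, exists_eq_left']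
theorem Q1_iff (h : TA g R t) {u k v : ℕ} : Q R u (4 * k + 1) v ↔ le R v (t (g k) u) := by
  rw [Q1]
  simp only [h.act, exists_eq_left']
theorem Q2_iff (h : TA g R t) {u k v : ℕ} :
    Q R u (4 * k + 2) v ↔ ∃ r, le R r v ∧ le R r (t (g k) u) := by
  rw [Q2]
  constructor
  · rintro ⟨z, r, h1, h2, h3⟩
    rw [h.act] at h1
    subst h1
    exact ⟨r, h2, h3⟩
  · rintro ⟨r, h2, h3⟩
    exact ⟨_, r, (h.act _ _ _).2 rfl, h2, h3⟩
theorem Q3_iff (h : TA g R t) {u i j v : ℕ} : Q R u (4 * Nat.pair i j + 3) v ↔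
    ∃ r, le R r v ∧ le R r (t (g i) u) ∧ ¬ le R r (t (g j) u) := by
  rw [Q3]
  constructor
  · rintro ⟨z, z', r, h1, h1', h2, h3, h4⟩
    rw [h.act] at h1 h1'
    subst h1 h1'
    exact ⟨r, h2, h3, h4⟩
  · rintro ⟨r, h2, h3, h4⟩
    exact ⟨_, _, r, (h.act _ _ _).2 rfl, (h.act _ _ _).2 rfl, h2, h3, h4⟩

theorem idx4 (m : ℕ) : ∃ k, m = 4 * k ∨ m = 4 * k + 1 ∨ m = 4 * k + 2 ∨
    ∃ i j, m = 4 * Nat.pair i j + 3 := by
  refine ⟨m / 4, ?_⟩
  have h := Nat.mod_lt m (show 0 < 4 by norm_num)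
  have h' := Nat.div_add_mod m 4
  by_cases h3 : m % 4 = 3
  · refine Or.inr (Or.inr (Or.inr ⟨(m / 4).unpair.1, (m / 4).unpair.2, ?_⟩))
    rw [Nat.pair_unpair]
    omega
  · omega

/-- Labels in the abstract setting. -/
theorem LE_iff (hg : Function.Surjective g) {R' : R2} {t' : Γ → ℕ → ℕ} (h : TA g R t)
    (h' : TA g R' t') {u x u' x' : ℕ} : (∀ m, Q R u m x ↔ Q R' u' m x') ↔
    @Ge.LE Γ (Pt R t) (Pt R' t') _ h.po h.ma h'.po h'.ma u x u' x' := by
  letI := h.po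
  letI := h.ma
  letI := h'.po
  letI := h'.ma
  constructor
  · intro H
    refine ⟨fun γ => ?_, fun γ => ?_, fun γ => ?_, fun γ δ => ?_⟩
    · obtain ⟨k, rfl⟩ := hg γ
      have := H (4 * k)
      rwa [Q0_iff h, Q0_iff h'] at this
    · obtain ⟨k, rfl⟩ := hg γ
      have := H (4 * k + 1)
      rwa [Q1_iff h, Q1_iff h'] at this
    · obtain ⟨k, rfl⟩ := hg γ
      have := H (4 * k + 2)
      rwa [Q2_iff h, Q2_iff h'] at this
    · obtain ⟨k, rfl⟩ := hg γ
      obtain ⟨l, rfl⟩ := hg δ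
      have := H (4 * Nat.pair k l + 3)
      rwa [Q3_iff h, Q3_iff h'] at this
  · intro H m
    obtain ⟨k, rfl | rfl | rfl | ⟨i, j, rfl⟩⟩ := idx4 m
    · rw [Q0_iff h, Q0_iff h']; exact H.a (g k)
    · rw [Q1_iff h, Q1_iff h']; exact H.b (g k)
    · rw [Q2_iff h, Q2_iff h']; exact H.e (g k)
    · rw [Q3_iff h, Q3_iff h']; exact H.d (g i) (g j)

theorem sl_iff (hg : Function.Surjective g) (h : TA g R t) {u v w : ℕ} :
    sl R u v w ↔ @Ge.SL Γ (Pt R t) _ h.po h.ma u v w := by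
  letI := h.po
  letI := h.ma
  have := LE_iff hg h h (u := u) (x := v) (u' := u) (x' := w)
  unfold sl
  rw [this]
  constructor
  · intro H
    exact ⟨⟨H.a, H.e, H.d⟩, H.b⟩
  · intro H
    exact ⟨H.a, H.b, H.e, H.d⟩

/-- reduced labels -/
theorem rl_iff (hg : Function.Surjective g) (h : TA g R t) {u v w : ℕ} :
    (∀ m, m % 4 ≠ 1 → (Q R u m v ↔ Q R u m w)) ↔ @Ge.RL Γ (Pt R t) _ h.po h.ma u v w := by
  letI := h.po
  letI := h.ma
  constructor
  · intro H
    refine ⟨fun γ => ?_, fun γ => ?_, fun γ δ => ?_⟩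
    · obtain ⟨k, rfl⟩ := hg γ
      have := H (4 * k) (by omega)
      rwa [Q0_iff h, Q0_iff h] at this
    · obtain ⟨k, rfl⟩ := hg γ
      have := H (4 * k + 2) (by omega)
      rwa [Q2_iff h, Q2_iff h] at this
    · obtain ⟨k, rfl⟩ := hg γ
      obtain ⟨l, rfl⟩ := hg δ
      have := H (4 * Nat.pair k l + 3) (by omega)
      rwa [Q3_iff h, Q3_iff h] at this
  · intro H m hm
    obtain ⟨k, rfl | rfl | rfl | ⟨i, j, rfl⟩⟩ := idx4 m
    · rw [Q0_iff h, Q0_iff h]; exact H.a (g k)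
    · omega
    · rw [Q2_iff h, Q2_iff h]; exact H.e (g k)
    · rw [Q3_iff h, Q3_iff h]; exact H.d (g i) (g j)

theorem Du_iff (hg : Function.Surjective g) (h : TA g R t) {u s : ℕ} :
    Du R u s ↔ @Ge.DD Γ (Pt R t) _ h.po h.ma u s := by
  letI := h.po
  letI := h.ma
  constructor
  · rintro ⟨n, z, h1, h2⟩
    rw [h.act] at h1
    subst h1
    exact ⟨g n, h2⟩
  · rintro ⟨γ, h1⟩
    obtain ⟨n, rfl⟩ := hg γ
    exact ⟨n, _, (h.act _ _ _).2 rfl, h1⟩

theorem In_iff (hg : Function.Surjective g) (h : TA g R t) {u s x : ℕ} :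
    In R u s x ↔ @Ge.IN Γ (Pt R t) _ h.po h.ma u s x := by
  letI := h.po
  letI := h.ma
  constructor
  · rintro ⟨n, m, z, w, h1, h2, h3, h4, h5⟩
    rw [h.act] at h1 h2
    subst h1 h2
    exact ⟨g n, g m, (sl_iff hg h).1 h3, h4, h5⟩
  · rintro ⟨γ, δ, h3, h4, h5⟩
    obtain ⟨n, rfl⟩ := hg γ
    obtain ⟨m, rfl⟩ := hg δ
    exact ⟨n, m, _, _, (h.act _ _ _).2 rfl, (h.act _ _ _).2 rfl, (sl_iff hg h).2 h3, h4, h5⟩

theorem Ob_iff (hg : Function.Surjective g) (h : TA g R t) {u v x : ℕ} :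
    x ∈ Ob R u v ↔ (x : Pt R t) ∈ @Ge.OB Γ (Pt R t) _ h.po h.ma u v := by
  letI := h.po
  letI := h.ma
  rw [mem_Ob]
  refine or_congr (orb_iff hg h) (or_congr ?_ ?_)
  · constructor
    · rintro ⟨n, z, r, h1, h2, h3, h4⟩
      rw [h.act] at h1
      subst h1
      exact ⟨g n, r, h2, h3, fun h5 => h4 ((Du_iff hg h).2 h5)⟩
    · rintro ⟨γ, r, h2, h3, h4⟩
      obtain ⟨n, rfl⟩ := hg γ
      exact ⟨n, _, r, (h.act _ _ _).2 rfl, h2, h3, fun h5 => h4 ((Du_iff hg h).1 h5)⟩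
  · refine exists_congr fun s => ?_
    rw [Du_iff hg h, In_iff hg h, In_iff hg h]

theorem tr_ex {P : ℕ → ℕ → Prop} (h : TR g R) : TR g (ex P R) := by
  obtain ⟨t, h1⟩ := h
  refine ⟨t, ⟨?_, ?_, ?_, h1.one, h1.mul, ?_, ?_⟩⟩
  · simpa only [lt_ex] using h1.irr
  · simpa only [lt_ex] using h1.tr
  · simpa only [lt_ex] using h1.sem
  · simpa only [lt_ex] using h1.mono
  · simpa only [ac_ex] using h1.act

theorem tr_nm {O : Set ℕ} (h : TR g R) : TR g (Nm O R) := tr_ex h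

end act

theorem le_ex (P : ℕ → ℕ → Prop) (R : R2) (x y : ℕ) : le (ex P R) x y ↔ le R x y := by
  simp only [le, lt_ex]
theorem Q_ex (P : ℕ → ℕ → Prop) (R : R2) (y m v : ℕ) : Q (ex P R) y m v ↔ Q R y m v := by
  simp only [Q, ac_ex, le_ex]
theorem sl_ex (P : ℕ → ℕ → Prop) (R : R2) (y v w : ℕ) : sl (ex P R) y v w ↔ sl R y v w := by
  simp only [sl, Q_ex]
theorem Du_ex (P : ℕ → ℕ → Prop) (R : R2) (u s : ℕ) : Du (ex P R) u s ↔ Du R u s := by
  simp only [Du, ac_ex, le_ex]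
theorem In_ex (P : ℕ → ℕ → Prop) (R : R2) (u s x : ℕ) : In (ex P R) u s x ↔ In R u s x := by
  simp only [In, ac_ex, le_ex, sl_ex]
theorem Ob_ex (P : ℕ → ℕ → Prop) (R : R2) (u v : ℕ) : Ob (ex P R) u v = Ob R u v := by
  simp only [Ob, ac_ex, le_ex, orb_ex, Du_ex, In_ex]

theorem sl_refl (R : R2) (y v : ℕ) : sl R y v v := fun _ => Iff.rfl
theorem sl_symm {R : R2} {y v w : ℕ} (h : sl R y v w) : sl R y w v := fun m => (h m).symm
theorem sl_trans {R : R2} {y v w x : ℕ} (h : sl R y v w) (h' : sl R y w x) : sl R y v x :=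
  fun m => (h m).trans (h' m)

theorem piso_le {R R' : R2} {p : Set (ℕ × ℕ)} (h : PIso (lift R) (lift R') p) {x x' y y' : ℕ}
    (hx : (x, x') ∈ p) (hy : (y, y') ∈ p) : le R x y ↔ le R' x' y' :=
  or_congr (piso_eq h hx hy) (piso_lt h hx hy)

end Pool.Agent.Y560.TF
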