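import Mathlib

/-!
Project TF: semilinear orders with an action of a group by automorphisms; classes over a point.
Definitions and first facts.
-/

set_option autoImplicit false
set_option linter.unusedSectionVars false

namespace Pool.Agent.Y560.TF.Ge

/-- A semilinear order with an action of a group by automorphisms. -/
class Tr (Γ X : Type) [Group Γ] [PartialOrder X] [MulAction Γ X] : Prop where
  semi : ∀ a b c : X, a ≤ c → b ≤ c → a ≤ b ∨ b ≤ a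
  mono : ∀ (γ : Γ) (a b : X), a ≤ b → γ • a ≤ γ • b

variable (Γ : Type) {X : Type} [Group Γ] [PartialOrder X] [MulAction Γ X]

/-- `s` and `x` have the same reduced label over `u`. -/
structure RL (u s x : X) : Prop where
  a : ∀ γ : Γ, γ • u ≤ s ↔ γ • u ≤ x
  e : ∀ γ : Γ, (∃ r, r ≤ s ∧ r ≤ γ • u) ↔ ∃ r, r ≤ x ∧ r ≤ γ • u
  d : ∀ γ δ : Γ, (∃ r, r ≤ s ∧ r ≤ γ • u ∧ ¬ r ≤ δ • u) ↔ ∃ r, r ≤ x ∧ r ≤ γ • u ∧ ¬ r ≤ δ • u

/-- `s` and `x` have the same label over `u`. -/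
structure SL (u s x : X) : Prop extends RL Γ u s x where
  b : ∀ γ : Γ, s ≤ γ • u ↔ x ≤ γ • u

/-- `s` lies below a point of the orbit of `u`. -/
def DD (u s : X) : Prop := ∃ γ : Γ, s ≤ γ • u

/-- Two points of the orbit of `s` with the same label over `u` are separated by `x`. -/
def IN (u s x : X) : Prop := ∃ γ δ : Γ, SL Γ u (γ • s) (δ • s) ∧ γ • s ≤ x ∧ ¬ δ • s ≤ x

/-- The class of `v` over `u`. -/
def OB (u v : X) : Set X :=
  {t | (∃ γ : Γ, γ • v = t) ∨ (∃ (γ : Γ) (r : X), r ≤ γ • v ∧ r ≤ t ∧ ¬ DD Γ u r) ∨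
    ∃ s, DD Γ u s ∧ IN Γ u s v ∧ IN Γ u s t}

variable {Γ}

theorem mem_OB {u v t : X} : t ∈ OB Γ u v ↔ (∃ γ : Γ, γ • v = t) ∨
    (∃ (γ : Γ) (r : X), r ≤ γ • v ∧ r ≤ t ∧ ¬ DD Γ u r) ∨
    ∃ s, DD Γ u s ∧ IN Γ u s v ∧ IN Γ u s t := Iff.rfl

theorem RL.refl (u s : X) : RL Γ u s s := ⟨fun _ => Iff.rfl, fun _ => Iff.rfl, fun _ _ => Iff.rfl⟩
theorem RL.symm {u s x : X} (h : RL Γ u s x) : RL Γ u x s :=
  ⟨fun γ => (h.a γ).symm, fun γ => (h.e γ).symm, fun γ δ => (h.d γ δ).symm⟩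
theorem RL.trans {u s x z : X} (h : RL Γ u s x) (h' : RL Γ u x z) : RL Γ u s z :=
  ⟨fun γ => (h.a γ).trans (h'.a γ), fun γ => (h.e γ).trans (h'.e γ),
    fun γ δ => (h.d γ δ).trans (h'.d γ δ)⟩
theorem SL.refl (u s : X) : SL Γ u s s := ⟨RL.refl u s, fun _ => Iff.rfl⟩
theorem SL.symm {u s x : X} (h : SL Γ u s x) : SL Γ u x s := ⟨h.toRL.symm, fun γ => (h.b γ).symm⟩
theorem SL.trans {u s x z : X} (h : SL Γ u s x) (h' : SL Γ u x z) : SL Γ u s z :=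
  ⟨h.toRL.trans h'.toRL, fun γ => (h.b γ).trans (h'.b γ)⟩

theorem DD.le {u s x : X} (h : DD Γ u x) (hs : s ≤ x) : DD Γ u s := by
  obtain ⟨γ, h⟩ := h
  exact ⟨γ, hs.trans h⟩

theorem SL.dd {u s x : X} (h : SL Γ u s x) : DD Γ u s ↔ DD Γ u x :=
  exists_congr fun γ => h.b γ

variable [Tr Γ X]

theorem sle {γ : Γ} {a b : X} : γ • a ≤ γ • b ↔ a ≤ b := by
  refine ⟨fun h => ?_, Tr.mono γ a b⟩
  have := Tr.mono γ⁻¹ _ _ h
  rwa [inv_smul_smul, inv_smul_smul] at this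

theorem sle_left {γ : Γ} {a b : X} : γ • a ≤ b ↔ a ≤ γ⁻¹ • b := by
  rw [← sle (γ := γ⁻¹), inv_smul_smul]

theorem sle_right {γ : Γ} {a b : X} : a ≤ γ • b ↔ γ⁻¹ • a ≤ b := by
  rw [← sle (γ := γ⁻¹), inv_smul_smul]

theorem slt {γ : Γ} {a b : X} : γ • a < γ • b ↔ a < b := by
  rw [lt_iff_le_not_ge, lt_iff_le_not_ge, sle, sle]

/-- two elements below a common one are comparable -/
theorem cmp (Γ : Type) {X : Type} [Group Γ] [PartialOrder X] [MulAction Γ X] [Tr Γ X]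
    {a b c : X} (ha : a ≤ c) (hb : b ≤ c) : a ≤ b ∨ b ≤ a := Tr.semi Γ a b c ha hb

theorem cmp_lt (Γ : Type) {X : Type} [Group Γ] [PartialOrder X] [MulAction Γ X] [Tr Γ X]
    {a b c : X} (ha : a ≤ c) (hb : b ≤ c) (h : ¬ a ≤ b) : b < a := by
  rcases cmp Γ ha hb with h1 | h1
  · exact absurd h1 h
  · exact lt_of_le_of_ne h1 fun e => h (e ▸ le_rfl)

theorem DD.smul {u s : X} (γ : Γ) (h : DD Γ u s) : DD Γ u (γ • s) := by
  obtain ⟨δ, h⟩ := h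
  exact ⟨γ * δ, by rw [mul_smul]; exact sle.2 h⟩

theorem DD_smul {u s : X} {γ : Γ} : DD Γ u (γ • s) ↔ DD Γ u s := by
  refine ⟨fun h => ?_, DD.smul γ⟩
  have := h.smul γ⁻¹
  rwa [inv_smul_smul] at this

theorem ex_smul (γ : Γ) (P : X → Prop) : (∃ r, P r) ↔ ∃ r, P (γ • r) := by
  constructor
  · rintro ⟨r, h⟩
    exact ⟨γ⁻¹ • r, by rwa [smul_inv_smul]⟩
  · rintro ⟨r, h⟩
    exact ⟨_, h⟩

theorem RL.smul {u s x : X} (γ : Γ) (h : RL Γ u s x) : RL Γ u (γ • s) (γ • x) := by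
  refine ⟨fun δ => ?_, fun δ => ?_, fun δ ε => ?_⟩
  · rw [sle_right, sle_right, ← mul_smul]
    exact h.a _
  · rw [ex_smul γ, ex_smul γ (fun r => r ≤ γ • x ∧ r ≤ δ • u)]
    simp only [sle]
    simp only [sle_left (γ := γ), ← mul_smul]
    exact h.e _
  · rw [ex_smul γ, ex_smul γ (fun r => r ≤ γ • x ∧ r ≤ δ • u ∧ ¬ r ≤ ε • u)]
    simp only [sle]
    simp only [sle_left (γ := γ), ← mul_smul]
    exact h.d _ _

theorem SL.smul {u s x : X} (γ : Γ) (h : SL Γ u s x) : SL Γ u (γ • s) (γ • x) := by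
  refine ⟨h.toRL.smul γ, fun δ => ?_⟩
  rw [sle_left, sle_left, ← mul_smul]
  exact h.b _

theorem RL_smul {u s x : X} {γ : Γ} : RL Γ u (γ • s) (γ • x) ↔ RL Γ u s x := by
  refine ⟨fun h => ?_, RL.smul γ⟩
  have := h.smul γ⁻¹
  rwa [inv_smul_smul, inv_smul_smul] at this

theorem SL_smul {u s x : X} {γ : Γ} : SL Γ u (γ • s) (γ • x) ↔ SL Γ u s x := by
  refine ⟨fun h => ?_, SL.smul γ⟩
  have := h.smul γ⁻¹
  rwa [inv_smul_smul, inv_smul_smul] at this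

theorem IN_smul {u s x : X} {γ : Γ} : IN Γ u s (γ • x) ↔ IN Γ u s x := by
  constructor
  · rintro ⟨a, b, h1, h2, h3⟩
    refine ⟨γ⁻¹ * a, γ⁻¹ * b, ?_, ?_, ?_⟩
    · rw [mul_smul, mul_smul]
      exact h1.smul _
    · rw [mul_smul, ← sle_right]; exact h2
    · rw [mul_smul, ← sle_right]; exact h3
  · rintro ⟨a, b, h1, h2, h3⟩
    refine ⟨γ * a, γ * b, ?_, ?_, ?_⟩
    · rw [mul_smul, mul_smul]
      exact h1.smul _
    · rw [mul_smul, sle]; exact h2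
    · rw [mul_smul, sle]; exact h3

/-- Elements between two elements with the same label have this label. -/
theorem SL.mid {u s x z : X} (h : SL Γ u s x) (h1 : s ≤ z) (h2 : z ≤ x) : SL Γ u s z := by
  refine ⟨⟨fun γ => ⟨fun h3 => h3.trans h1, fun h3 => (h.a γ).2 (h3.trans h2)⟩,
    fun γ => ⟨fun ⟨r, h3, h4⟩ => ⟨r, h3.trans h1, h4⟩,
      fun ⟨r, h3, h4⟩ => (h.e γ).2 ⟨r, h3.trans h2, h4⟩⟩,
    fun γ δ => ⟨fun ⟨r, h3, h4⟩ => ⟨r, h3.trans h1, h4⟩,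
      fun ⟨r, h3, h4⟩ => (h.d γ δ).2 ⟨r, h3.trans h2, h4⟩⟩⟩,
    fun γ => ⟨fun h3 => h2.trans ((h.b γ).1 h3), fun h3 => h1.trans h3⟩⟩

/-- If `q` has the label of `p ≤ x` and `x` lies below the orbit of `u`, then `q` and `x` are
comparable. -/
theorem SL.cmp {u p q x : X} (h : SL Γ u p q) (hx : DD Γ u x) (hp : p ≤ x) :
    q ≤ x ∨ x ≤ q := by
  obtain ⟨γ, hγ⟩ := hx
  exact Tr.semi Γ _ _ _ ((h.b γ).1 (hp.trans hγ)) hγ

theorem SL.cmp_lt {u p q x : X} (h : SL Γ u p q) (hx : DD Γ u x) (hp : p ≤ x)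
    (hq : ¬ q ≤ x) : x < q := by
  rcases h.cmp hx hp with h1 | h1
  · exact absurd h1 hq
  · exact lt_of_le_of_ne h1 fun e => hq (e ▸ le_rfl)

/-- If `p` and `κ • p` have the same label then so have `x` and `κ • x` for all `x` with the
label of `p`. -/
theorem SL.shift {u p x : X} {κ : Γ} (h : SL Γ u p (κ • p)) (hx : SL Γ u p x) :
    SL Γ u x (κ • x) := (hx.symm.trans h).trans (hx.smul κ)

end Pool.Agent.Y560.TF.Ge
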