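import Pool.Agent.Y560.TF.Stm
import Pool.Agent.Y275.TG.Trq
import Pool.Agent.Y655.TG.Gl
import Pool.Agent.Y563.TG.Mat
import Pool.Agent.Y117.TG.BP

/-! Project TF: what is known from TG. -/

set_option autoImplicit false

namespace Pool.Agent.Y560.TF

theorem t_EXT : Pool.Agent.Y560.TG.S_EXT := Pool.Agent.Y275.TG.t_EXT
theorem t_GL : Pool.Agent.Y560.TG.S_GL := Pool.Agent.Y655.TG.t_GL
theorem t_MAT : Pool.Agent.Y560.TG.S_MAT := Pool.Agent.Y563.TG.t_MAT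
theorem t_BP : Pool.Agent.Y560.TG.S_BP := Pool.Agent.Y117.TG.t_BP
theorem t_NMQ : S_NMQ :=
  ⟨(Pool.Agent.Y275.TG.t_TRQ t_EXT).2.2.2.2.2.1, (Pool.Agent.Y275.TG.t_TRQ t_EXT).2.2.2.2.2.2⟩

end Pool.Agent.Y560.TF
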