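import Pool.Agent.Y560.TF.Base
import Pool.Agent.Y560.TG.Stm

/-!
Project TF: statements of the steps.
-/

set_option autoImplicit false

namespace Pool.Agent.Y560.TF

open Set MeasureTheory
open Pool.Agent.H899R2.VP (St Adj PIso BF IsoOn idOn inv comp zipSet)
open Pool.Agent.H533R2.VO (RS lift put OS Ic RIso Dich VC BlkV S_FINAL)
open Pool.Agent.H566P (ar R2 v2 a0 a1 lt ac co mk S_ACC S_MSG)
open Pool.Agent.Y560.TG (acc msg lt_mk ac_mk co_mk R2_ext piso_iff riso_iff riso_isoOn meas_lt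
  meas_ac meas_co meas_into cont_into piso_lt piso_ac piso_co piso_eq ex lt_ex ac_ex co_ex_even
  co_ex_odd piso_ex orb orb_ex Nm Off Sm Thin Few bf_trans0 bf_symm0 iso_trans0 iso_symm0
  iso_refl0 S_EXT S_GL S_MAT S_BP mat pick Se)

/-! ### Back-and-forth basics -/

/-- TBF -/
def S_TBF : Prop := ∀ (Γ : Type) [Group Γ] (g : ℕ → Γ), Function.Surjective g → ∀ R R' : R2,
  TR g R → BF (lift R) (lift R') univ univ Ordinal.omega0 ∅ → TR g R'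

/-- NMQ: names (known from TG) -/
def S_NMQ : Prop :=
  (∀ (R V : R2) (O : Set ℕ) (o : Ordinal.{0}), Ordinal.omega0 ≤ o →
    (BF (lift (Nm O R)) (lift (Nm O V)) univ univ o ∅ ↔
      BF (lift R) (lift V) univ univ o (idOn Oᶜ))) ∧
  (∀ (R V : R2) (O : Set ℕ), (RIso (Nm O R) (Nm O V) ↔
      IsoOn (lift R) (lift V) univ univ (idOn Oᶜ)))

/-- TRQ: labels and classes under back-and-forth equivalences and isomorphisms -/
def S_TRQ : Prop :=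
  (∀ (R R' : R2) (q : Set (ℕ × ℕ)) (y y' v v' m : ℕ),
    BF (lift R) (lift R') univ univ 3 q → (y, y') ∈ q → (v, v') ∈ q →
    (Q R y m v ↔ Q R' y' m v')) ∧
  (∀ (R R' : R2) (q : Set (ℕ × ℕ)) (u u' v v' t t' : ℕ),
    BF (lift R) (lift R') univ univ 8 q → (u, u') ∈ q → (v, v') ∈ q → (t, t') ∈ q →
    (t ∈ Ob R u v ↔ t' ∈ Ob R' u' v')) ∧
  (∀ (R R' : R2) (p : Set (ℕ × ℕ)) (u u' v v' : ℕ) (o : Ordinal.{0}), Ordinal.omega0 ≤ o →
    BF (lift R) (lift R') univ univ o p → (u, u') ∈ p → (v, v') ∈ p →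
    BF (lift (lb R u)) (lift (lb R' u')) (Ob R u v) (Ob R' u' v') o
      {w | w ∈ p ∧ w.1 ∈ Ob R u v}) ∧
  (∀ (R R' : R2) (p : Set (ℕ × ℕ)) (u u' v v' : ℕ),
    IsoOn (lift R) (lift R') univ univ p → (u, u') ∈ p → (v, v') ∈ p →
    IsoOn (lift (lb R u)) (lift (lb R' u')) (Ob R u v) (Ob R' u' v')
      {w | w ∈ p ∧ w.1 ∈ Ob R u v}) ∧
  (∀ (R R' : R2) (p : Set (ℕ × ℕ)) (u u' : ℕ) (o : Ordinal.{0}), Ordinal.omega0 ≤ o →
    BF (lift R) (lift R') univ univ o p → (u, u') ∈ p →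
    BF (lift (lb R u)) (lift (lb R' u')) univ univ o p) ∧
  (∀ (R V : R2) (q : Set (ℕ × ℕ)) (y : ℕ),
    BF (lift (ex (Q R y) R)) (lift (ex (Q R y) V)) univ univ Ordinal.omega0 q → (y, y) ∈ q →
    ∀ m x, Q V y m x ↔ Q R y m x) ∧
  (∀ (R R' : R2) (q : Set (ℕ × ℕ)) (u u' s s' : ℕ),
    BF (lift R) (lift R') univ univ 8 q → (u, u') ∈ q → (s, s') ∈ q →
    (Du R u s ↔ Du R' u' s'))

/-- MQ: measurability -/
def S_MQ : Prop :=
  (∀ y m z, MeasurableSet {Y : R2 | Q Y y m z}) ∧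
  (∀ u s, MeasurableSet {Y : R2 | Du Y u s}) ∧
  ∀ u v t, MeasurableSet {Y : R2 | t ∈ Ob Y u v}

/-! ### Geometry -/

/-- Geometry of the classes. -/
structure GEO (R : R2) : Prop where
  self : ∀ u v, v ∈ Ob R u v
  eqv : ∀ u v x, x ∈ Ob R u v → Ob R u x = Ob R u v
  inv : ∀ n u v x z, ac R n x z → (x ∈ Ob R u v ↔ z ∈ Ob R u v)
  mod : ∀ u v, Mod (Ob R u v) (Q R u) R
  cl : ∀ y z x v, x ∈ Ob R y z → v ∈ Ob R y z → Ob R x v ⊆ Ob R y z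
  tl : ∀ y z x, x ∉ Ob R y z → Ob R y z ⊆ Ob R x z
  out : ∀ y z, (y ∈ Ob R y z ↔ orb R y z) ∧ (∀ v, orb R y v → Ob R y v = {w | orb R y w})
  eqs : ∀ y x z n x' z', ac R n x x' → ac R n z z' → (sl R y x z ↔ sl R y x' z')
  lu : ∀ u z x v v', x ∉ Ob R u z → v ∈ Ob R u z → v' ∈ Ob R u z → sl R u v v' → sl R x v v'
  bc : ∀ y z u u' v, y ∉ Ob R y z → u ∈ Ob R y z → u' ∈ Ob R y z → sl R y u u' →
    v ∉ Ob R y z → Ob R u v = Ob R u' v
  refl : ∀ x, ∃ n, ac R n x x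
  symm : ∀ n x z, ac R n x z → ∃ m, ac R m z x
  func : ∀ n x z z', ac R n x z → ac R n x z' → z = z'

/-- GEO -/
def S_GEO : Prop := ∀ (Γ : Type) [Group Γ] (g : ℕ → Γ), Function.Surjective g → ∀ R : R2,
  TR g R → GEO R

/-- good elements of a class -/
def Gd (R : R2) (u v x : ℕ) : Prop := x ∈ Ob R u v ∧ (Du R u x ∨ ∀ z ∈ Ob R u v, ¬ Du R u z)

/-- GDR: an isomorphism of classes which preserves the label of a good element preserves all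
labels -/
def S_GDR : Prop := ∀ (Γ : Type) [Group Γ] (g : ℕ → Γ), Function.Surjective g →
  ∀ (R R' : R2) (u v u' v' x x' : ℕ), TR g R → TR g R' →
  IsoOn (lift R) (lift R') (Ob R u v) (Ob R' u' v') {(x, x')} →
  Gd R u v x → Gd R' u' v' x' → (∀ m, Q R u m x ↔ Q R' u' m x') →
  IsoOn (lift (lb R u)) (lift (lb R' u')) (Ob R u v) (Ob R' u' v') {(x, x')}

/-! ### Filling -/

/-- FILL: variations of a module in place -/
def S_FILL : Prop := ∀ (R T : R2) (O Y : Set ℕ) (P : ℕ → ℕ → Prop) (α : Ordinal.{0}),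
  Mod O P R → Ordinal.omega0 ≤ α → BF (lift (ex P R)) (lift T) O Y α ∅ →
  ∃ V : R2, Off O R V ∧ BF (lift (ex P R)) (lift (ex P V)) univ univ α (idOn Oᶜ) ∧
    IsoOn (lift T) (lift (ex P V)) Y O ∅ ∧ BF (lift (ex P R)) (lift (ex P V)) O O α ∅ ∧
    BF (lift R) (lift V) univ univ α (idOn Oᶜ)

/-- FILI: an isomorphism of variations in place of a class extends by the identity -/
def S_FILI : Prop := ∀ (Γ : Type) [Group Γ] (g : ℕ → Γ), Function.Surjective g →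
  ∀ (R V V' : R2) (y z : ℕ) (q : Set (ℕ × ℕ)), TR g R → ¬ orb R y z → Off (Ob R y z) R V →
  Off (Ob R y z) R V' → BF (lift R) (lift V) univ univ Ordinal.omega0 (idOn (Ob R y z)ᶜ) →
  BF (lift R) (lift V') univ univ Ordinal.omega0 (idOn (Ob R y z)ᶜ) →
  IsoOn (lift (lb V y)) (lift (lb V' y)) (Ob R y z) (Ob R y z) q →
  IsoOn (lift V) (lift V') univ univ (q ∪ idOn (Ob R y z)ᶜ)

/-- SI1: if the structure with all elements outside a module named is thin, then the module is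
small -/
def S_SI1 : Prop := ∀ (R : R2) (O : Set ℕ) (P : ℕ → ℕ → Prop) (β : Ordinal.{0}),
  Mod O P R → Ordinal.omega0 ≤ β →
  (∀ (V V' : R2) (q : Set (ℕ × ℕ)),
    BF (lift (ex P R)) (lift (ex P V)) univ univ β (idOn Oᶜ) →
    BF (lift (ex P R)) (lift (ex P V')) univ univ β (idOn Oᶜ) →
    idOn Oᶜ ⊆ q → BF (lift V) (lift V') univ univ β q →
    ∀ u ∈ q, u.1 ∈ O → ∀ k, P k u.1 ↔ P k u.2) →
  Thin β (Nm O R) → Sm β (ex P R) O

/-- SIC: the case of a class -/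
def S_SIC : Prop := ∀ (Γ : Type) [Group Γ] (g : ℕ → Γ), Function.Surjective g →
  ∀ (R : R2) (u v : ℕ) (β : Ordinal.{0}), TR g R → ¬ orb R u v → Ordinal.omega0 ≤ β →
  Thin β (Nm (Ob R u v) R) → Sm β (lb R u) (Ob R u v)

/-- OFF: facts on variations in place of a class -/
def S_OFF : Prop := ∀ (Γ : Type) [Group Γ] (g : ℕ → Γ), Function.Surjective g →
  ∀ (R V : R2) (O : Set ℕ), TR g R → (∀ n x z, ac R n x z → (x ∈ O ↔ z ∈ O)) → Off O R V →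
  BF (lift R) (lift V) univ univ Ordinal.omega0 (idOn Oᶜ) →
    TR g V ∧
    (∀ n x z, ac V n x z → (x ∈ O ↔ z ∈ O)) ∧
    (∀ y z, ¬ orb R y z → O = Ob R y z → ∀ e ∈ O, Ob V y e = O) ∧
    (∀ y z, y ∉ O → z ∉ O → Disjoint (Ob R y z) O → Ob V y z = Ob R y z) ∧
    (∀ y z, y ∉ O → O ⊆ Ob R y z → ∀ e ∈ Ob R y z, Ob V y e = Ob R y z) ∧
    (∀ y v m, y ∉ O → v ∉ O → (Q V y m v ↔ Q R y m v))

/-- SUB: supersets of big classes are big (contrapositive) -/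
def S_SUB : Prop := ∀ (Γ : Type) [Group Γ] (g : ℕ → Γ), Function.Surjective g →
  ∀ (R : R2) (y z u : ℕ) (D : Set ℕ) (β : Ordinal.{0}), TR g R → Ordinal.omega0 ≤ β →
  ¬ orb R y z → u ∉ Ob R y z → Ob R y z ⊆ D → Sm β (lb (Nm D R) u) (Ob R u z) →
  Sm β (lb R y) (Ob R y z)

/-- NSM: smallness in a structure with names -/
def S_NSM : Prop := ∀ (R : R2) (D X : Set ℕ) (y : ℕ) (β : Ordinal.{0}), Ordinal.omega0 ≤ β →
  (X ⊆ D → (Sm β (lb R y) X ↔ Sm β (lb (Nm D R) y) X)) ∧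
  (Disjoint X D → Sm β (lb (Nm D R) y) X) ∧
  (∀ u v, Ob (Nm D R) u v = Ob R u v)

/-! ### Families of variations -/

/-- A family of variations `V s` of pairwise disjoint classes `Ob R (y k) (d k)`, `k = s / 2`,
with the labels over `y k` of `R`. -/
structure Fm {Γ : Type} [Group Γ] (g : ℕ → Γ) (α : Ordinal.{0}) (R : R2) (y d : ℕ → ℕ)
    (V : ℕ → R2) : Prop where
  tr : TR g R
  om : Ordinal.omega0 ≤ α
  out : ∀ j k, y j ∉ Ob R (y k) (d k)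
  dis : ∀ j k, j ≠ k → Disjoint (Ob R (y j) (d j)) (Ob R (y k) (d k))
  off : ∀ s, Off (Ob R (y (s / 2)) (d (s / 2))) R (V s)
  bf : ∀ s, BF (lift (lb R (y (s / 2)))) (lift (ex (Q R (y (s / 2))) (V s)))
    (Ob R (y (s / 2)) (d (s / 2))) (Ob R (y (s / 2)) (d (s / 2))) α ∅

open Classical in
/-- the number of the class of `x` -/
noncomputable def idx (R : R2) (y d : ℕ → ℕ) (x : ℕ) : Option ℕ :=
  if h : ∃ k, x ∈ Ob R (y k) (d k) then some h.choose else none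

/-- the structure `R` with the class `k` replaced by `V s`, for `s ∈ S`, `k = s / 2` -/
noncomputable def FX (R : R2) (y d : ℕ → ℕ) (V : ℕ → R2) (S : Set ℕ) : R2 :=
  mk (fun a b => if idx R y d a = idx R y d b then lt (pick R V S (idx R y d a)) a b
      else lt R a b)
    (fun n a b => if idx R y d a = idx R y d b then ac (pick R V S (idx R y d a)) n a b
      else ac R n a b)
    (fun n a => co (pick R V S (idx R y d a)) n a)

/-- all labels over the points `y k`, and all classes `Ob R (y k) (d k)` -/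
def QQ (R : R2) (y d : ℕ → ℕ) (m v : ℕ) : Prop :=
  if m % 2 = 0 then Q R (y (m / 2).unpair.1) (m / 2).unpair.2 v
  else v ∈ Ob R (y (m / 2)) (d (m / 2))

/-- FAM1 -/
def S_FAM1 : Prop := ∀ (Γ : Type) [Group Γ] (g : ℕ → Γ), Function.Surjective g →
  ∀ (α : Ordinal.{0}) (R : R2) (y d : ℕ → ℕ) (V : ℕ → R2), Fm g α R y d V →
  (∀ S k m v, Q (FX R y d V S) (y k) m v ↔ Q R (y k) m v) ∧
  (∀ S S' J : Set ℕ, (∀ k ∉ J, pick R V S (some k) = pick R V S' (some k)) →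
    BF (lift (ex (QQ R y d) (FX R y d V S))) (lift (ex (QQ R y d) (FX R y d V S')))
      univ univ α (idOn {x | ∀ k ∈ J, x ∉ Ob R (y k) (d k)})) ∧
  (∀ S, TR g (FX R y d V S)) ∧
  (∀ S k, Ob (FX R y d V S) (y k) (d k) = Ob R (y k) (d k)) ∧
  (∀ S k, IsoOn (lift (ex (Q R (y k)) (pick R V S (some k)))) (lift (lb (FX R y d V S) (y k)))
    (Ob R (y k) (d k)) (Ob R (y k) (d k)) (idOn (Ob R (y k) (d k)))) ∧
  FX R y d V ∅ = R ∧
  Continuous (fun ε : ℕ → Bool => FX R y d V (Se ε))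

/-- FAM2: agreement outside the classes with numbers in `J` -/
def S_FAM2 : Prop := ∀ (Γ : Type) [Group Γ] (g : ℕ → Γ), Function.Surjective g →
  ∀ (α : Ordinal.{0}) (R : R2) (y d : ℕ → ℕ) (V : ℕ → R2), Fm g α R y d V →
  ∀ (S S' J : Set ℕ), (∀ k ∉ J, pick R V S (some k) = pick R V S' (some k)) →
  ∀ u v, (∀ j ∈ J, v ∉ Ob R (y j) (d j)) →
  Ob (FX R y d V S) u v = Ob (FX R y d V S') u v ∧
  ((∀ j ∈ J, Disjoint (Ob (FX R y d V S) u v) (Ob R (y j) (d j))) →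
    IsoOn (lift (FX R y d V S)) (lift (FX R y d V S'))
      (Ob (FX R y d V S) u v) (Ob (FX R y d V S') u v) ∅)

/-- The types (without labels) of the family are new. -/
def New (R : R2) (y d : ℕ → ℕ) (V : ℕ → R2) : Prop :=
  ∀ (s : ℕ) (S : Set ℕ), (∀ s' ∈ S, s' < s) → ∀ u v,
    ¬ IsoOn (lift (FX R y d V S)) (lift (V s))
      (Ob (FX R y d V S) u v) (Ob R (y (s / 2)) (d (s / 2))) ∅

/-- SEQ -/
def S_SEQ : Prop := ∀ (Γ : Type) [Group Γ] (g : ℕ → Γ), Function.Surjective g →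
  ∀ (α : Ordinal.{0}) (R : R2) (y d : ℕ → ℕ), TR g R → Ordinal.omega0 ≤ α →
  (∀ j k, y j ∉ Ob R (y k) (d k)) →
  (∀ j k, j ≠ k → Disjoint (Ob R (y j) (d j)) (Ob R (y k) (d k))) →
  (∀ k, ¬ Sm α (lb R (y k)) (Ob R (y k) (d k))) →
  ∃ V : ℕ → R2, Fm g α R y d V ∧ New R y d V

/-- the big classes -/
def Bg (β : Ordinal.{0}) (R : R2) (y z : ℕ) : Prop := ¬ orb R y z ∧ ¬ Sm β (lb R y) (Ob R y z)

/-- C1: finitely many big classes over a point -/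
def S_C1 : Prop := ∀ (Γ : Type) [Group Γ] (g : ℕ → Γ), Function.Surjective g →
  ∀ (α : Ordinal.{0}) (R : R2) (y : ℕ), TR g R → Ordinal.omega0 ≤ α → α < Ordinal.omega 1 →
  Few α R → ¬ ∃ d : ℕ → ℕ, (∀ k, Bg α R y (d k)) ∧ ∀ j k, j ≠ k → d j ∉ Ob R y (d k)

/-- C2: no combs -/
def S_C2 : Prop := ∀ (Γ : Type) [Group Γ] (g : ℕ → Γ), Function.Surjective g →
  ∀ (α : Ordinal.{0}) (R : R2), TR g R → Ordinal.omega0 ≤ α → α < Ordinal.omega 1 →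
  Few α R → ¬ ∃ y d : ℕ → ℕ, (∀ k, Bg α R (y k) (d k)) ∧
    (∀ k, ¬ orb R (y k) (y (k + 1))) ∧ (∀ k, d k ∉ Ob R (y k) (y (k + 1))) ∧
    (∀ k, d (k + 1) ∈ Ob R (y k) (y (k + 1))) ∧ ∀ k, y (k + 2) ∈ Ob R (y k) (y (k + 1))

/-! ### Few structures -/

/-- PL: structures with names are variations in place, in a Borel way -/
def S_PL : Prop := ∀ (R : R2) (O : Set ℕ),
  ∃ pl : R2 → R2, Measurable pl ∧ ∀ W : R2,
    BF (lift (Nm O R)) (lift W) univ univ Ordinal.omega0 ∅ →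
    RIso (Nm O (pl W)) W ∧ Off O R (pl W)

/-- NFEW: fewness passes to the structure with names -/
def S_NFEW : Prop := ∀ (R : R2) (O : Set ℕ) (y : ℕ) (β : Ordinal.{0}) (Bad : Set R2),
  y ∉ O → Ordinal.omega0 ≤ β → β < Ordinal.omega 1 → Few β R →
  (∃ f : ℕ → R2, ∀ V ∈ Bad, ∃ n, IsoOn (lift (f n)) (lift V) univ univ (idOn Oᶜ)) →
  (∀ V V' : R2, V ∉ Bad → Off O R V → Off O R V' →
    BF (lift R) (lift V) univ univ β (idOn Oᶜ) → BF (lift R) (lift V') univ univ β (idOn Oᶜ) →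
    IsoOn (lift V) (lift V') univ univ {(y, y)} →
    IsoOn (lift V) (lift V') univ univ (idOn Oᶜ)) →
  Few β (Nm O R)

/-- K1: fewness passes to the structure with names outside a class -/
def S_K1 : Prop := ∀ (Γ : Type) [Group Γ] (g : ℕ → Γ), Function.Surjective g →
  ∀ (R : R2) (y z : ℕ) (β : Ordinal.{0}), TR g R → ¬ orb R y z → Ordinal.omega0 ≤ β →
  β < Ordinal.omega 1 → Few β R → Few β (Nm (Ob R y z) R)

/-- LBC: countably many values of a Borel invariant of pairs of points -/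
def S_LBC : Prop := ∀ (K : Set R2), MeasurableSet K →
  (¬ ∃ c : (ℕ → Bool) → R2, Continuous c ∧ (∀ A, c A ∈ K) ∧
    ∀ A A', RIso (c A) (c A') → A = A') →
  ∀ l : R2 → ℕ → ℕ → ℕ → Bool, (∀ y z, Measurable fun Y => l Y y z) →
  (∀ Y ∈ K, ∀ Y' ∈ K, ∀ y z y' z', IsoOn (lift Y) (lift Y') univ univ {(y, y'), (z, z')} →
    l Y y z = l Y' y' z') →
  {p | ∃ Y ∈ K, ∃ y z, l Y y z = p}.Countable

/-- LABQ: countably many labels -/
def S_LABQ : Prop := ∀ (R : R2) (γ : Ordinal.{0}), Ordinal.omega0 ≤ γ → γ < Ordinal.omega 1 →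
  Few γ R → ∃ Λ : ℕ → ℕ → Prop, ∀ Y : R2, BF (lift R) (lift Y) univ univ γ ∅ →
    ∀ y z, ∃ i, ∀ m, Q Y y m z ↔ Λ i m

/-! ### Sums -/

/-- Disjoint unions of pieces, all isomorphic to members of a countable list; `ac T 0` is the
relation of being in the same piece. -/
def VM (F : ℕ → R2 × Set ℕ) (T : R2) : Prop :=
  (∀ x, ac T 0 x x) ∧ (∀ x y, ac T 0 x y → ac T 0 y x) ∧
  (∀ x y z, ac T 0 x y → ac T 0 y z → ac T 0 x z) ∧ (∀ x y, lt T x y → ac T 0 x y) ∧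
  (∀ n x y, ac T n x y → ac T 0 x y) ∧
  ∀ x, ∃ n, IsoOn (lift (F n).1) (lift T) (F n).2 {z | ac T 0 x z} ∅

/-- VM -/
def S_VM : Prop := ∀ F : ℕ → R2 × Set ℕ, VC (VM F)

/-- the `i`-th reduced label of the list `Λ` occurs in the orbit of `z` -/
def lc (Λ : ℕ → ℕ → Prop) (Y : R2) (y z i : ℕ) : Prop :=
  ∃ n z', ac Y n z z' ∧ ∀ m, m % 4 ≠ 1 → (Q Y y m z' ↔ Λ i m)

/-- the first reduced label of the list which occurs in the orbit of `z` has number `i` -/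
def fl (Λ : ℕ → ℕ → Prop) (Y : R2) (y z i : ℕ) : Prop :=
  lc Λ Y y z i ∧ ∀ j < i, ¬ lc Λ Y y z j

/-- the order of the positions -/
def lp (Y : R2) (y a b : ℕ) : Prop :=
  (∃ r, Du Y y r ∧ le Y r b ∧ ¬ le Y r a) ∨
  (Du Y y a ∧ ¬ Du Y y b ∧ le Y a b ∧ ∀ r, Du Y y r → le Y r b → le Y r a)

/-- the order of the positions of the classes over `y` -/
def bel (Λ : ℕ → ℕ → Prop) (Y : R2) (y a b : ℕ) : Prop :=
  (∃ i j, fl Λ Y y a i ∧ fl Λ Y y b j ∧ i < j) ∨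
  ((∃ i, fl Λ Y y a i ∧ fl Λ Y y b i) ∧ b ∉ Ob Y y a ∧
    ∃ n m x x', ac Y n a x ∧ ac Y m b x' ∧ (∀ k, k % 4 ≠ 1 → (Q Y y k x ↔ Q Y y k x')) ∧
      lp Y y x x')

open Classical in
/-- the structure `Y` as an ordered sum of unions of classes over `y` -/
noncomputable def sha (Λ : ℕ → ℕ → Prop) (Y : R2) (y : ℕ) : St ar :=
  (fun a b => decide (bel Λ Y y a b),
    mk (fun a b => lt Y a b ∧ b ∈ Ob Y y a)
      (fun n a b => if n = 0 then b ∈ Ob Y y a else ac Y (n - 1) a b) (co (lb Y y)))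

/-- the way back -/
noncomputable def fla (M : St ar) : R2 :=
  mk (fun a b => lt M.2 a b ∨ (¬ ac M.2 0 a b ∧ (∃ k, co M.2 (2 * (4 * k + 1) + 1) a) ∧
      ((∃ k, co M.2 (2 * (4 * k + 1) + 1) a ∧ co M.2 (2 * (4 * k) + 1) b) ∨
       (∃ i j, co M.2 (2 * (4 * i + 1) + 1) a ∧ co M.2 (2 * (4 * j + 1) + 1) a ∧
          co M.2 (2 * (4 * Nat.pair i j + 3) + 1) b) ∨
       ((∀ m, m % 4 ≠ 1 → (co M.2 (2 * m + 1) a ↔ co M.2 (2 * m + 1) b)) ∧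
          M.1 b a = false))))
    (fun n => ac M.2 (n + 1)) (fun n a => co M.2 (2 * n) a)

/-- SHA -/
def S_SHA : Prop := ∀ (Γ : Type) [Group Γ] (g : ℕ → Γ), Function.Surjective g →
  ∀ (Λ : ℕ → ℕ → Prop) (Y : R2) (y : ℕ), TR g Y →
  (∀ z, ∃ i, ∀ m, Q Y y m z ↔ Λ i m) →
  OS (sha Λ Y y) ∧ fla (sha Λ Y y) = Y

/-- PSL: if all classes over a point are small, then the structure is thin -/
def S_PSL : Prop := ∀ (Γ : Type) [Group Γ] (g : ℕ → Γ), Function.Surjective g →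
  ∀ (R : R2) (y : ℕ) (β γ : Ordinal.{0}), TR g R → Ordinal.omega0 ≤ β → β + 2 ≤ γ →
  γ < Ordinal.omega 1 → Few γ R → (∀ z, ¬ orb R y z → Sm β (lb R y) (Ob R y z)) → Thin γ R

/-! ### One big class over every point -/

/-- one-ended structures -/
structure OneEnd (β : Ordinal.{0}) (R : R2) : Prop where
  ex : ∀ y, ∃ z, Bg β R y z
  un : ∀ y z z', Bg β R y z → Bg β R y z' → z' ∈ Ob R y z
  tr : ∀ y z w, Bg β R y z → Bg β R z w → Bg β R y w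

/-- The list `Λ` contains the labels over `y` of the elements of the big class over `y`. -/
def Cov (Λ : ℕ → ℕ → Prop) (β : Ordinal.{0}) (Y : R2) (y : ℕ) : Prop :=
  ∀ w, Bg β Y y w → ∃ i, ∀ k, Q Y y k w ↔ Λ i k

/-- `z` (outside the big class over `y`) is below (`j` even), or above (`j` odd), an element of
the big class with the label number `j / 2`. -/
def Lr (Λ : ℕ → ℕ → Prop) (β : Ordinal.{0}) (Y : R2) (j y z : ℕ) : Prop :=
  ¬ Bg β Y y z ∧ ∃ w, Bg β Y y w ∧ (∀ k, Q Y y k w ↔ Λ (j / 2) k) ∧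
    (j % 2 = 0 ∧ lt Y z w ∨ j % 2 = 1 ∧ lt Y w z)

/-- the union of the small classes over `y` -/
def Sp (β : Ordinal.{0}) (Y : R2) (y : ℕ) : Set ℕ := {z | ¬ Bg β Y y z ∧ ¬ orb Y y z}

/-- labels for `Sp` -/
def PA (Λ : ℕ → ℕ → Prop) (β : Ordinal.{0}) (Y : R2) (y k v : ℕ) : Prop :=
  if k % 2 = 0 then Q Y y (k / 2) v else Lr Λ β Y (k / 2) y v

/-- OEB: basic facts -/
def S_OEB : Prop := ∀ (Γ : Type) [Group Γ] (g : ℕ → Γ), Function.Surjective g →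
  ∀ (Y : R2) (β : Ordinal.{0}), TR g Y → Ordinal.omega0 ≤ β → OneEnd β Y →
  (∀ y z w, Bg β Y y w → Bg β Y y z ∨ Bg β Y z w) ∧
  (∀ y z w, Bg β Y y w → (Bg β Y y z ↔ z ∈ Ob Y y w)) ∧
  (∀ n y z z', ac Y n z z' → (Bg β Y y z ↔ Bg β Y y z')) ∧
  (∀ (Λ : ℕ → ℕ → Prop) y z w j, ¬ Bg β Y y z → Bg β Y y w → (∀ k, Q Y y k w ↔ Λ j k) →
    (lt Y z w ↔ Lr Λ β Y (2 * j) y z) ∧ (lt Y w z ↔ Lr Λ β Y (2 * j + 1) y z)) ∧
  (∀ Λ y, Cov Λ β Y y → Mod (Sp β Y y) (PA Λ β Y y) Y)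

/-- OET: transfer of the one-endedness -/
def S_OET : Prop := ∀ (R Y : R2) (β : Ordinal.{0}) (Λ : ℕ → ℕ → Prop), Ordinal.omega0 ≤ β →
  (∀ (q : Set (ℕ × ℕ)) (y z y' z' : ℕ), BF (lift R) (lift Y) univ univ β q → (y, y') ∈ q →
    (z, z') ∈ q → (Bg β R y z ↔ Bg β Y y' z')) ∧
  (∀ (q : Set (ℕ × ℕ)) (j y z y' z' : ℕ), BF (lift R) (lift Y) univ univ (β + 1) q →
    (y, y') ∈ q → (z, z') ∈ q → (Lr Λ β R j y z ↔ Lr Λ β Y j y' z')) ∧
  (BF (lift R) (lift Y) univ univ (β + 3) ∅ → OneEnd β R → OneEnd β Y) ∧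
  (∀ (q : Set (ℕ × ℕ)) (y y' : ℕ) (o : Ordinal.{0}),
    BF (lift R) (lift Y) univ univ (β + 1 + o) q → (y, y') ∈ q →
    BF (lift (ex (PA Λ β R y) R)) (lift (ex (PA Λ β Y y') Y)) (Sp β R y) (Sp β Y y') o ∅)

/-- OES: the small part over a point -/
def S_OES : Prop := ∀ (Γ : Type) [Group Γ] (g : ℕ → Γ), Function.Surjective g →
  ∀ (R : R2) (β γ : Ordinal.{0}) (Λ : ℕ → ℕ → Prop), TR g R → Ordinal.omega0 ≤ β →
  β + 3 ≤ γ → γ < Ordinal.omega 1 → Few γ R → OneEnd β R → ∀ y, Cov Λ β R y →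
  Sm γ (ex (PA Λ β R y) R) (Sp β R y)

/-- EXTW: isomorphisms of the closed segments -/
def S_EXTW : Prop := ∀ (Γ : Type) [Group Γ] (g : ℕ → Γ), Function.Surjective g →
  ∀ (Y Y' : R2) (β : Ordinal.{0}) (Λ : ℕ → ℕ → Prop) (m m' : ℕ), TR g Y → TR g Y' →
  Ordinal.omega0 ≤ β → OneEnd β Y → OneEnd β Y' →
  BF (lift Y) (lift Y') univ univ (β + 3) {(m, m')} →
  IsoOn (lift (ex (PA Λ β Y m) Y)) (lift (ex (PA Λ β Y' m') Y')) (Sp β Y m) (Sp β Y' m') ∅ →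
  Cov Λ β Y m → Cov Λ β Y' m' →
  ∃ φ : {k // ¬ Bg β Y m k} ≃ {k // ¬ Bg β Y' m' k},
    (∀ a b, lt Y' (φ a) (φ b) ↔ lt Y a b) ∧ (∀ n a b, ac Y' n (φ a) (φ b) ↔ ac Y n a b) ∧
    (∀ n a, co Y' n (φ a) ↔ co Y n a) ∧ (∀ a b, Bg β Y' (φ a) (φ b) ↔ Bg β Y a b) ∧
    (∀ j a b, Lr Λ β Y' j (φ a) (φ b) ↔ Lr Λ β Y j a b)

/-- HEXT: automorphisms of the closed segments extend -/
def S_HEXT : Prop := ∀ (Γ : Type) [Group Γ] (g : ℕ → Γ), Function.Surjective g →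
  ∀ (Y : R2) (β : Ordinal.{0}) (Λ : ℕ → ℕ → Prop) (m : ℕ), TR g Y → Ordinal.omega0 ≤ β →
  OneEnd β Y → Cov Λ β Y m →
  ∀ φ : {k // ¬ Bg β Y m k} ≃ {k // ¬ Bg β Y m k},
    (∀ a b, lt Y (φ a) (φ b) ↔ lt Y a b) → (∀ n a b, ac Y n (φ a) (φ b) ↔ ac Y n a b) →
    (∀ n a, co Y n (φ a) ↔ co Y n a) → (∀ j a b, Lr Λ β Y j (φ a) (φ b) ↔ Lr Λ β Y j a b) →
    (∀ a : {k // ¬ Bg β Y m k}, (a : ℕ) = m → (φ a : ℕ) = m) →
    ∃ σ : Equiv.Perm ℕ, (∀ x y, lt Y (σ x) (σ y) ↔ lt Y x y) ∧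
      (∀ n x y, ac Y n (σ x) (σ y) ↔ ac Y n x y) ∧ (∀ n x, co Y n (σ x) ↔ co Y n x) ∧
      ∀ a : {k // ¬ Bg β Y m k}, σ a = φ a

/-- OEM: measurability -/
def S_OEM : Prop := ∀ (R : R2) (β γ : Ordinal.{0}) (Λ : ℕ → ℕ → Prop), Ordinal.omega0 ≤ β →
  β + 3 ≤ γ → γ < Ordinal.omega 1 →
  (∀ y z, MeasurableSet {Y : R2 | BF (lift R) (lift Y) univ univ γ ∅ ∧ Bg β Y y z}) ∧
  (∀ j y z, MeasurableSet {Y : R2 | BF (lift R) (lift Y) univ univ γ ∅ ∧ Lr Λ β Y j y z})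

/-- OE: one-ended structures are thin, uniformly -/
def S_OE : Prop := ∀ (Γ : Type) [Group Γ] (g : ℕ → Γ), Function.Surjective g →
  ∀ (R : R2) (β : Ordinal.{0}), TR g R → Ordinal.omega0 ≤ β → β < Ordinal.omega 1 →
  Few (β * Ordinal.omega0) R → OneEnd β R → Thin (β * Ordinal.omega0 + 1) R

/-! ### The end -/

/-- REC -/
def S_REC : Prop := ∀ (Γ : Type) [Group Γ] (g : ℕ → Γ), Function.Surjective g →
  ∀ (R : R2) (α : Ordinal.{0}), TR g R → Ordinal.omega0 ≤ α → α < Ordinal.omega 1 →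
  Few α R → Thin (α * Ordinal.omega0 + Ordinal.omega0 * Ordinal.omega0) R

/-- FIN -/
def S_FIN : Prop := ∀ (Γ : Type) [Group Γ] (g : ℕ → Γ), Function.Surjective g → VC (TR g)

end Pool.Agent.Y560.TF
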